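import Mathlib
import Pool.Agent.H38R3.Ellentuck

set_option autoImplicit false

/-!
# The shift graph on increasing sequences has no finite Borel colouring
-/

namespace Pool.Agent.W923.BH

open Set Pool.Agent.H38R3.Ell

/-- Increasing enumeration of a set of natural numbers. -/
noncomputable def enum (A : Set ℕ) : ℕ → ℕ := Nat.nth (· ∈ A)

/-- The shift. -/
def Sh (x : ℕ → ℕ) : ℕ → ℕ := fun k => x (k + 1)

theorem enum_strictMono {A : Set ℕ} (hA : A.Infinite) : StrictMono (enum A) :=
  Nat.nth_strictMono hA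

theorem range_enum {A : Set ℕ} (hA : A.Infinite) : range (enum A) = A :=
  Nat.range_nth_of_infinite hA

theorem enum_range {f : ℕ → ℕ} (hf : StrictMono f) : enum (range f) = f := by
  have h1 : (range f).Infinite := infinite_range_of_injective hf.injective
  exact (StrictMono.range_inj (enum_strictMono h1) hf).1 (range_enum h1)

theorem eo_coord (i m : ℕ) : EO {A : Set ℕ | enum A i = m} := by
  classical
  intro z hz hinf
  have hz' : Nat.nth (· ∈ z) i = m := hz
  have hmz : m ∈ z := by
    rw [← hz']; exact Nat.nth_mem_of_infinite hinf i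
  have hcount : Nat.count (· ∈ z) m = i := by
    rw [← hz']; exact Nat.count_nth_of_infinite (p := (· ∈ z)) hinf i
  refine ⟨(Finset.range (m + 1)).filter (· ∈ z), ?_, ?_⟩
  · refine ⟨hinf, fun n hn => (Finset.mem_filter.1 hn).2, fun n hn => ?_⟩
    by_cases h : n ≤ m
    · left; exact Finset.mem_filter.2 ⟨Finset.mem_range.2 (by omega), hn⟩
    · right
      refine ⟨hn, fun k hk => ?_⟩
      have := Finset.mem_range.1 (Finset.mem_filter.1 hk).1
      omega
  · intro w hw
    have key : ∀ n ≤ m, (n ∈ w ↔ n ∈ z) := by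
      intro n hn
      constructor
      · intro h
        rcases hw.2.2 n h with h' | h'
        · exact (Finset.mem_filter.1 h').2
        · exact h'.1
      · intro h
        exact hw.2.1 n (Finset.mem_filter.2 ⟨Finset.mem_range.2 (by omega), h⟩)
    have hmw : m ∈ w := (key m le_rfl).2 hmz
    have hc : Nat.count (· ∈ w) m = i := by
      rw [← hcount, Nat.count_eq_card_filter_range, Nat.count_eq_card_filter_range]
      congr 1
      apply Finset.filter_congr
      intro n hn
      exact key n (Finset.mem_range.1 hn).le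
    show Nat.nth (· ∈ w) i = m
    rw [← hc]
    exact Nat.nth_count hmw

theorem CR.empty : CR (∅ : Set (Set ℕ)) := fun _ X hX => ⟨X, Subset.rfl, hX, Or.inr fun _ _ h => h⟩

/-- The `σ`-algebra of all sets of functions whose preimage under the enumeration is completely
Ramsey. -/
@[reducible] def crAlg : MeasurableSpace (ℕ → ℕ) where
  MeasurableSet' B := CR (enum ⁻¹' B)
  measurableSet_empty := CR.empty
  measurableSet_compl _ h := h.compl
  measurableSet_iUnion f h := by
    have := CR.iUnion h
    rwa [← preimage_iUnion] at this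

theorem cr_of_measurable {B : Set (ℕ → ℕ)} (hB : MeasurableSet B) : CR (enum ⁻¹' B) := by
  have hle : (MeasurableSpace.pi : MeasurableSpace (ℕ → ℕ)) ≤ crAlg := by
    refine iSup_le fun i => ?_
    rintro _ ⟨S, -, rfl⟩
    have : (fun x : ℕ → ℕ => x i) ⁻¹' S = ⋃ m ∈ S, {x | x i = m} := by
      ext x; simp
    change @MeasurableSet _ crAlg ((fun x : ℕ → ℕ => x i) ⁻¹' S)
    rw [this]
    refine @MeasurableSet.biUnion _ _ crAlg _ _ (to_countable S) fun m _ => ?_
    exact (eo_coord i m).cr
  exact hle _ hB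

theorem hom_step (c : (ℕ → ℕ) → ℕ) (hc : Measurable c) (j : ℕ) :
    (∃ Y : Set ℕ, Y.Infinite ∧ ∀ z ∈ Nb ∅ Y, ∀ i < j, c (enum z) ≠ i) ∨
    ∃ i, ∃ Y : Set ℕ, Y.Infinite ∧ ∀ z ∈ Nb ∅ Y, c (enum z) = i := by
  induction j with
  | zero => exact Or.inl ⟨univ, infinite_univ, fun _ _ i hi => absurd hi (Nat.not_lt_zero i)⟩
  | succ j ih =>
    rcases ih with ⟨Y, hY, h⟩ | h
    · have hm : MeasurableSet (c ⁻¹' {j}) := hc (measurableSet_singleton j)
      obtain ⟨Z, hZY, hZ, h1 | h1⟩ := cr_of_measurable hm ∅ Y hY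
      · exact Or.inr ⟨j, Z, hZ, fun z hz => h1 z hz⟩
      · refine Or.inl ⟨Z, hZ, fun z hz i hi => ?_⟩
        rcases Nat.lt_succ_iff_lt_or_eq.1 hi with hi | rfl
        · exact h z (Nb_mono hZY hz) i hi
        · exact fun h2 => h1 z hz h2
    · exact Or.inr h

/-- The shift graph on the strictly increasing sequences has no Borel colouring with finitely many
colours. -/
theorem shift_not_colorable (n : ℕ) (c : (ℕ → ℕ) → ℕ) (hc : Measurable c) (hlt : ∀ x, c x < n) :
    ∃ x : ℕ → ℕ, StrictMono x ∧ c x = c (Sh x) := by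
  rcases hom_step c hc n with ⟨Y, hY, h⟩ | ⟨i, Y, hY, h⟩
  · have hmem : Y ∈ Nb ∅ Y := ⟨hY, by simp, fun k hk => Or.inr ⟨hk, by simp⟩⟩
    exact absurd rfl (h Y hmem _ (hlt _))
  · have hmem : Y ∈ Nb ∅ Y := ⟨hY, by simp, fun k hk => Or.inr ⟨hk, by simp⟩⟩
    have hmono : StrictMono (Sh (enum Y)) := fun a b hab => enum_strictMono hY (by omega)
    have hmem' : range (Sh (enum Y)) ∈ Nb ∅ Y := by
      refine ⟨infinite_range_of_injective hmono.injective, by simp, ?_⟩
      rintro _ ⟨k, rfl⟩
      exact Or.inr ⟨Nat.nth_mem_of_infinite hY (k + 1), by simp⟩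
    refine ⟨enum Y, enum_strictMono hY, ?_⟩
    rw [h _ hmem]
    have := h _ hmem'
    rw [enum_range hmono] at this
    exact this.symm

end Pool.Agent.W923.BH
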