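import Mathlib
import Pool.Agent.W923.BH.Ramsey

set_option autoImplicit false

/-!
# A 3-colouring of the orbit of a sequence from a function which no shift of it dominates
-/

namespace Pool.Agent.W923.BH

open Set

/-- The `j`-th shift. -/
def Shn (j : ℕ) (x : ℕ → ℕ) : ℕ → ℕ := fun k => x (k + j)

theorem Shn_zero (x : ℕ → ℕ) : Shn 0 x = x := rfl

theorem Shn_Sh (j : ℕ) (x : ℕ → ℕ) : Shn j (Sh x) = Shn (j + 1) x := by
  funext k; simp [Shn, Sh, Nat.add_assoc]

theorem strictMono_Sh {x : ℕ → ℕ} (hx : StrictMono x) : StrictMono (Sh x) :=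
  fun _ _ h => hx (Nat.succ_lt_succ h)

theorem strictMono_Shn {x : ℕ → ℕ} (hx : StrictMono x) (j : ℕ) : StrictMono (Shn j x) :=
  fun _ _ h => hx (Nat.add_lt_add_right h j)

/-- A strictly increasing majorant. -/
def hat (F : ℕ → ℕ) (n : ℕ) : ℕ := ∑ j ∈ Finset.range (n + 1), (F j + 1)

theorem hat_succ (F : ℕ → ℕ) (n : ℕ) : hat F (n + 1) = hat F n + (F (n + 1) + 1) := by
  unfold hat; rw [Finset.sum_range_succ]

theorem hat_lt_succ (F : ℕ → ℕ) (n : ℕ) : hat F n < hat F (n + 1) := by
  rw [hat_succ]; omega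

theorem hat_strictMono (F : ℕ → ℕ) : StrictMono (hat F) := strictMono_nat_of_lt_succ (hat_lt_succ F)

theorem lt_hat (F : ℕ → ℕ) (n : ℕ) : F n < hat F n := by
  unfold hat; rw [Finset.sum_range_succ]; omega

/-- `x` is the last but one element of its sequence in an interval. -/
def Mk (x F : ℕ → ℕ) : Prop :=
  ∃ n, hat F n ≤ x 0 ∧ x 1 < hat F (n + 1) ∧ hat F (n + 1) ≤ x 2

theorem Mk_indep {x F : ℕ → ℕ} (h : Mk x F) : ¬ Mk (Sh x) F := by
  obtain ⟨n, h1, h2, h3⟩ := h
  rintro ⟨m, h4, h5, h6⟩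
  have e1 : Sh x 0 = x 1 := rfl
  have e2 : Sh x 1 = x 2 := rfl
  rw [e1] at h4
  rw [e2] at h5
  have h7 : hat F m < hat F (n + 1) := by omega
  have h8 : hat F (n + 1) < hat F (m + 1) := by omega
  have h9 := (hat_strictMono F).lt_iff_lt.1 h7
  have h10 := (hat_strictMono F).lt_iff_lt.1 h8
  omega

/-- No shift of `x` dominates `F`. -/
def Nondom (x F : ℕ → ℕ) : Prop := ∀ k, ∃ n, x (n + k) < F n

theorem Nondom.Sh {x F : ℕ → ℕ} (h : Nondom x F) : Nondom (Sh x) F := by
  intro k
  obtain ⟨n, hn⟩ := h (k + 1)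
  exact ⟨n, hn⟩

theorem Nondom.Shn {x F : ℕ → ℕ} (h : Nondom x F) (j : ℕ) : Nondom (Shn j x) F := by
  intro k
  obtain ⟨n, hn⟩ := h (k + j)
  refine ⟨n, ?_⟩
  show x (n + k + j) < F n
  rwa [Nat.add_assoc]

theorem exists_Mk {x F : ℕ → ℕ} (hx : StrictMono x) (h : Nondom x F) : ∃ j, Mk (Shn j x) F := by
  by_contra hcon
  push Not at hcon
  obtain ⟨n, hn⟩ := h (hat F 0)
  have key : ∀ n, hat F n ≤ x (n + hat F 0) := by
    intro n
    induction n with
    | zero => simpa using hx.id_le (hat F 0)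
    | succ n ih =>
      by_contra hlt
      push Not at hlt
      -- the first index `j` with `hat F (n+1) ≤ x (j + 2)`
      have hex : ∃ j, hat F (n + 1) ≤ x (j + 2) := ⟨hat F (n + 1), le_trans (Nat.le_add_right _ 2) (hx.id_le _)⟩
      classical
      let j := Nat.find hex
      have hj : hat F (n + 1) ≤ x (j + 2) := Nat.find_spec hex
      have hge : n + hat F 0 ≤ j := by
        by_contra hlt2
        push Not at hlt2
        have h2 : x (j + 2) ≤ x (n + 1 + hat F 0) := hx.monotone (by omega)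
        omega
      have hlt3 : x (j + 1) < hat F (n + 1) := by
        rcases Nat.eq_zero_or_pos j with h0 | h0
        · have h2 : x (j + 1) ≤ x (n + 1 + hat F 0) := hx.monotone (by omega)
          omega
        · have h3 := Nat.find_min hex (m := j - 1) (by omega)
          have h4 : j - 1 + 2 = j + 1 := by omega
          rw [h4] at h3
          omega
      refine hcon j ⟨n, ?_, ?_, ?_⟩
      · show hat F n ≤ x (0 + j)
        exact le_trans ih (hx.monotone (by omega))
      · show x (1 + j) < _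
        rwa [Nat.add_comm 1 j]
      · show _ ≤ x (2 + j)
        rwa [Nat.add_comm 2 j]
  have h1 := key n
  have h2 := lt_hat F n
  omega

open Classical in
/-- The colouring. -/
noncomputable def col3 (x F : ℕ → ℕ) : ℕ :=
  if Mk x F then 2 else if h : ∃ j, Mk (Shn j x) F then Nat.find h % 2 else 0

theorem col3_lt (x F : ℕ → ℕ) : col3 x F < 3 := by
  unfold col3
  split_ifs <;> omega

theorem col3_ne {x F : ℕ → ℕ} (hx : StrictMono x) (h : Nondom x F) : col3 x F ≠ col3 (Sh x) F := by
  classical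
  have h1 := exists_Mk hx h
  have h2 := exists_Mk (strictMono_Sh hx) h.Sh
  by_cases hM : Mk x F
  · have hM' := Mk_indep hM
    unfold col3
    rw [if_pos hM, if_neg hM', dif_pos h2]
    omega
  · by_cases hM' : Mk (Sh x) F
    · unfold col3
      rw [if_neg hM, if_pos hM', dif_pos h1]
      omega
    · unfold col3
      rw [if_neg hM, if_neg hM', dif_pos h1, dif_pos h2]
      have h3 : Nat.find h1 = Nat.find h2 + 1 := by
        rw [Nat.find_eq_iff]
        refine ⟨?_, ?_⟩
        · have := Nat.find_spec h2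
          rwa [Shn_Sh] at this
        · intro m hm hMm
          rcases Nat.eq_zero_or_pos m with h0 | h0
          · subst h0; exact hM hMm
          · have h4 := Nat.find_min h2 (m := m - 1) (by omega)
            rw [Shn_Sh] at h4
            have h5 : m - 1 + 1 = m := by omega
            rw [h5] at h4
            exact h4 hMm
      omega

theorem measurable_hat (n : ℕ) : Measurable fun F : ℕ → ℕ => hat F n := by
  unfold hat
  exact Finset.measurable_fun_sum _ fun j _ => (measurable_pi_apply j).add_const 1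

theorem measurableSet_Mk (j : ℕ) : MeasurableSet {p : (ℕ → ℕ) × (ℕ → ℕ) | Mk (Shn j p.1) p.2} := by
  have h : {p : (ℕ → ℕ) × (ℕ → ℕ) | Mk (Shn j p.1) p.2} =
      ⋃ n, ({p | hat p.2 n ≤ p.1 (0 + j)} ∩ {p | p.1 (1 + j) < hat p.2 (n + 1)} ∩
        {p | hat p.2 (n + 1) ≤ p.1 (2 + j)}) := by
    ext p; simp [Mk, Shn, and_assoc]
  rw [h]
  have m1 : ∀ i, Measurable fun p : (ℕ → ℕ) × (ℕ → ℕ) => p.1 i := fun i =>
    (measurable_pi_apply i).comp measurable_fst
  have m2 : ∀ n, Measurable fun p : (ℕ → ℕ) × (ℕ → ℕ) => hat p.2 n := fun n =>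
    (measurable_hat n).comp measurable_snd
  refine MeasurableSet.iUnion fun n => ?_
  exact ((measurableSet_le (m2 n) (m1 _)).inter (measurableSet_lt (m1 _) (m2 _))).inter
    (measurableSet_le (m2 _) (m1 _))

theorem measurable_col3 : Measurable fun p : (ℕ → ℕ) × (ℕ → ℕ) => col3 p.1 p.2 := by
  classical
  unfold col3
  refine Measurable.ite (measurableSet_Mk 0) measurable_const ?_
  have hS : MeasurableSet {p : (ℕ → ℕ) × (ℕ → ℕ) | ∃ j, Mk (Shn j p.1) p.2} := by
    rw [Set.ofPred_exists]
    exact MeasurableSet.iUnion fun j => measurableSet_Mk j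
  have hf : Measurable fun q : {p : (ℕ → ℕ) × (ℕ → ℕ) | ∃ j, Mk (Shn j p.1) p.2} =>
      Nat.find q.2 % 2 := by
    have : Measurable fun q : {p : (ℕ → ℕ) × (ℕ → ℕ) | ∃ j, Mk (Shn j p.1) p.2} =>
      Nat.find q.2 := by
      refine measurable_find (fun q => q.2) fun k => ?_
      exact measurable_subtype_coe (measurableSet_Mk k)
    exact (measurable_of_countable (fun n : ℕ => n % 2)).comp this
  exact Measurable.dite hf measurable_const hS

end Pool.Agent.W923.BH
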