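import Mathlib
import Pool.Agent.W923.BH.Marker

set_option autoImplicit false

/-!
# Evaluation of labelled trees coding Borel sets; a closed set without Borel uniformization
-/

namespace Pool.Agent.W923.BH

open Set

/-- Number of a finite sequence. -/
def en (u : List ℕ) : ℕ := Encodable.encode u

/-- Finite sequence with a given number. -/
def de (n : ℕ) : List ℕ := Denumerable.ofNat (List ℕ) n

@[simp] theorem de_en (u : List ℕ) : de (en u) = u := Denumerable.ofNat_encode u

@[simp] theorem en_de (n : ℕ) : en (de n) = n := Denumerable.encode_ofNat n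

theorem en_inj {u v : List ℕ} : en u = en v ↔ u = v :=
  ⟨fun h => by rw [← de_en u, h, de_en], fun h => by rw [h]⟩

/-- The basic clopen sets. -/
def bas (k : ℕ) (y : ℕ → ℕ) : Prop := y k.unpair.1 = k.unpair.2

/-- `u` is a node of the subtree of the code `c` with root `t`. -/
def InT (c : ℕ → ℕ) (t u : List ℕ) : Prop :=
  t <+: u ∧ ∀ k < u.length, t.length ≤ k → c (en (u.take k)) = 0

/-- `E` is correct at the node `u`: the value `0` means truth, the value `n + 1` means falsity,
with least witness `n`. -/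
def Loc (c y E : ℕ → ℕ) (u : List ℕ) : Prop :=
  (c (en u) = 0 → E (en u) = 0 → ∀ n, E (en (u ++ [n])) ≠ 0) ∧
  (c (en u) = 0 → ∀ n, E (en u) = n + 1 → E (en (u ++ [n])) = 0 ∧ ∀ m < n, E (en (u ++ [m])) ≠ 0) ∧
  (∀ k, c (en u) = k + 1 → (E (en u) = 0 ↔ bas k y) ∧ E (en u) ≤ 1)

/-- Evaluations of the subtree at `t` of the code `c` at the point `y`. -/
def Ev (c y : ℕ → ℕ) (t : List ℕ) : Set (ℕ → ℕ) :=
  {E | ∀ u, (InT c t u → Loc c y E u) ∧ (¬ InT c t u → E (en u) = 0)}

/-- The first `n` values of a sequence. -/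
def ini (w : ℕ → ℕ) (n : ℕ) : List ℕ := (List.range n).map w

theorem ini_zero (w : ℕ → ℕ) : ini w 0 = [] := rfl

theorem ini_succ (w : ℕ → ℕ) (n : ℕ) : ini w (n + 1) = w 0 :: ini (Sh w) n := by
  unfold ini
  rw [List.range_succ_eq_map, List.map_cons, List.map_map]
  rfl

theorem ini_succ' (w : ℕ → ℕ) (n : ℕ) : ini w (n + 1) = ini w n ++ [w n] := by
  unfold ini
  rw [List.range_succ, List.map_append]
  rfl

/-- `c` is a well-founded code for the set `X`. -/
def Coded (X : Set (ℕ → ℕ)) : Prop :=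
  ∃ c : ℕ → ℕ, (∀ w : ℕ → ℕ, ∃ n, c (en (ini w n)) ≠ 0) ∧
    ∀ y, ∀ E ∈ Ev c y [], (E (en []) = 0 ↔ y ∈ X)

theorem InT_self (c : ℕ → ℕ) (t : List ℕ) : InT c t t :=
  ⟨List.prefix_rfl, fun _ h1 h2 => absurd h2 (by omega)⟩

theorem coded_bas (k : ℕ) : Coded {y | bas k y} := by
  refine ⟨fun _ => k + 1, fun w => ⟨0, by simp⟩, fun y E hE => ?_⟩
  have h := ((hE []).1 (InT_self _ _)).2.2 k rfl
  exact h.1

/-- The code for the complement of the union. -/
def glueC (c : ℕ → ℕ → ℕ) (i : ℕ) : ℕ :=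
  match de i with
  | [] => 0
  | n :: u => c n (en u)

theorem glueC_nil (c : ℕ → ℕ → ℕ) : glueC c (en []) = 0 := by
  unfold glueC; rw [de_en]

theorem glueC_cons (c : ℕ → ℕ → ℕ) (n : ℕ) (u : List ℕ) : glueC c (en (n :: u)) = c n (en u) := by
  unfold glueC; rw [de_en]

theorem InT_glueC (c : ℕ → ℕ → ℕ) (n : ℕ) (u : List ℕ) :
    InT (glueC c) [] (n :: u) ↔ InT (c n) [] u := by
  constructor
  · rintro ⟨-, h⟩
    refine ⟨List.nil_prefix, fun k hk _ => ?_⟩
    have := h (k + 1) (by simp only [List.length_cons]; omega) (by simp)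
    rwa [List.take_succ_cons, glueC_cons] at this
  · rintro ⟨-, h⟩
    refine ⟨List.nil_prefix, fun k hk _ => ?_⟩
    rcases k with _ | k
    · rw [List.take_zero, glueC_nil]
    · rw [List.take_succ_cons, glueC_cons]
      exact h k (by simp only [List.length_cons] at hk; omega) (by simp)

theorem coded_nor {X : ℕ → Set (ℕ → ℕ)} (h : ∀ n, Coded (X n)) : Coded (⋃ n, X n)ᶜ := by
  choose c hc1 hc2 using h
  refine ⟨glueC c, fun w => ?_, fun y E hE => ?_⟩
  · obtain ⟨n, hn⟩ := hc1 (w 0) (Sh w)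
    refine ⟨n + 1, ?_⟩
    rw [ini_succ, glueC_cons]
    exact hn
  · have hsub : ∀ n, (fun i => E (en (n :: de i))) ∈ Ev (c n) y [] := by
      intro n u
      have hu := hE (n :: u)
      rw [InT_glueC] at hu
      constructor
      · intro h1
        have h2 := hu.1 h1
        unfold Loc at h2 ⊢
        simp only [de_en]
        rw [glueC_cons] at h2
        exact h2
      · intro h1
        simp only [de_en]
        exact hu.2 h1
    have h0 := (hE []).1 (InT_self _ _)
    have hc0 := glueC_nil c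
    have hX : ∀ n, (E (en [n]) = 0 ↔ y ∈ X n) := by
      intro n
      have := hc2 n y _ (hsub n)
      simpa using this
    rw [mem_compl_iff, mem_iUnion, not_exists]
    constructor
    · intro h1 n hn
      exact h0.1 hc0 h1 n ((hX n).2 hn)
    · intro h1
      by_contra h2
      obtain ⟨n, hn⟩ := Nat.exists_eq_succ_of_ne_zero h2
      have h3 := (h0.2.1 hc0 n hn).1
      exact h1 n ((hX n).1 h3)

theorem coded_compl {X : Set (ℕ → ℕ)} (h : Coded X) : Coded Xᶜ := by
  have := coded_nor (X := fun _ => X) fun _ => h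
  rwa [iUnion_const] at this

theorem coded_iUnion {X : ℕ → Set (ℕ → ℕ)} (h : ∀ n, Coded (X n)) : Coded (⋃ n, X n) := by
  have := coded_compl (coded_nor h)
  rwa [compl_compl] at this

theorem coded_empty : Coded (∅ : Set (ℕ → ℕ)) := by
  have h1 := coded_bas 0
  have h2 := coded_compl h1
  have h3 := coded_nor (X := fun n => if n = 0 then {y | bas 0 y} else {y | bas 0 y}ᶜ) (by
    intro n
    split_ifs
    · exact h1
    · exact h2)
  convert h3 using 1
  ext y
  simp only [mem_empty_iff_false, mem_compl_iff, mem_iUnion, not_exists, false_iff]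
  intro h
  by_cases hy : bas 0 y
  · exact h 0 (by simpa using hy)
  · exact h 1 (by simpa using hy)

/-- The `σ`-algebra of coded sets. -/
@[reducible] def codAlg : MeasurableSpace (ℕ → ℕ) where
  MeasurableSet' := Coded
  measurableSet_empty := coded_empty
  measurableSet_compl _ h := coded_compl h
  measurableSet_iUnion _ h := coded_iUnion h

theorem coded_of_measurable {X : Set (ℕ → ℕ)} (hX : MeasurableSet X) : Coded X := by
  have hle : (MeasurableSpace.pi : MeasurableSpace (ℕ → ℕ)) ≤ codAlg := by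
    refine iSup_le fun i => ?_
    rintro _ ⟨S, -, rfl⟩
    have : (fun x : ℕ → ℕ => x i) ⁻¹' S = ⋃ m ∈ S, {x | x i = m} := by
      ext x; simp
    change @MeasurableSet _ codAlg ((fun x : ℕ → ℕ => x i) ⁻¹' S)
    rw [this]
    refine @MeasurableSet.biUnion _ _ codAlg _ _ (to_countable S) fun m _ => ?_
    have h := coded_bas (Nat.pair i m)
    have h2 : {y : ℕ → ℕ | bas (Nat.pair i m) y} = {x | x i = m} := by
      ext y; simp [bas]
    rw [h2] at h
    exact h
  exact hle _ hX

/-- The closed set of all pairs `(z, w)` such that `w` is an infinite branch of the code `z` or an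
evaluation of the code `z` at the point `z`. -/
def PS : Set ((ℕ → ℕ) × (ℕ → ℕ)) :=
  {p | (p.2 0 = 0 ∧ ∀ n, p.1 (en (ini (Sh p.2) n)) = 0) ∨ (p.2 0 = 1 ∧ Sh p.2 ∈ Ev p.1 p.1 [])}

/-- `PS` has no Borel uniformization. -/
theorem PS_no_unif (Ψ : (ℕ → ℕ) → ℕ → ℕ) (hΨ : Measurable Ψ) : ¬ ∀ z, (z, Ψ z) ∈ PS := by
  intro hcon
  have hm : ∀ i, Measurable fun z => Ψ z i := fun i => (measurable_pi_apply i).comp hΨ
  have hX : MeasurableSet {z | Ψ z 0 = 1 ∧ Ψ z (en [] + 1) ≠ 0} := by
    refine MeasurableSet.inter (hm 0 (measurableSet_singleton 1)) ?_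
    exact (hm _ (measurableSet_singleton 0)).compl
  obtain ⟨c, hc1, hc2⟩ := coded_of_measurable hX
  rcases hcon c with ⟨-, h2⟩ | ⟨h1, h2⟩
  · obtain ⟨n, hn⟩ := hc1 (Sh (Ψ c))
    exact hn (h2 n)
  · have h3 := hc2 c _ h2
    change Ψ c (en [] + 1) = 0 ↔ (Ψ c 0 = 1 ∧ Ψ c (en [] + 1) ≠ 0) at h3
    by_cases h4 : Ψ c (en [] + 1) = 0
    · exact (h3.1 h4).2 h4
    · exact h4 (h3.2 ⟨h1, h4⟩)

/-! ### Closedness -/

theorem clopenP {X : Type*} [TopologicalSpace X] {f : X → ℕ} (hf : Continuous f) (P : ℕ → Prop) :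
    IsClopen {x | P (f x)} := (isClopen_discrete {n | P n}).preimage hf

theorem isClopen_InT (t u : List ℕ) : IsClopen {z : ℕ → ℕ | InT z t u} := by
  by_cases ht : t <+: u
  · have : {z : ℕ → ℕ | InT z t u} = ⋂ k ∈ Finset.range u.length,
        {z | t.length ≤ k → z (en (u.take k)) = 0} := by
      ext z; simp [InT, ht]
    rw [this]
    refine ⟨isClosed_biInter fun k _ => ?_, isOpen_biInter_finset fun k _ => ?_⟩
    · exact (clopenP (continuous_apply _) fun m => t.length ≤ k → m = 0).1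
    · exact (clopenP (continuous_apply _) fun m => t.length ≤ k → m = 0).2
  · have : {z : ℕ → ℕ | InT z t u} = ∅ := by
      ext z; simp [InT, ht]
    rw [this]
    exact isClopen_empty

theorem isClosed_Loc (u : List ℕ) :
    IsClosed {q : (ℕ → ℕ) × (ℕ → ℕ) | Loc q.1 q.1 q.2 u} := by
  have c1 : ∀ i, Continuous fun q : (ℕ → ℕ) × (ℕ → ℕ) => q.1 i := fun i =>
    (continuous_apply i).comp continuous_fst
  have c2 : ∀ i, Continuous fun q : (ℕ → ℕ) × (ℕ → ℕ) => q.2 i := fun i =>
    (continuous_apply i).comp continuous_snd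
  unfold Loc
  simp only [Set.ofPred_and]
  refine IsClosed.inter ?_ (IsClosed.inter ?_ ?_)
  · refine isClosed_imp (clopenP (c1 _) (· = 0)).2 (isClosed_imp (clopenP (c2 _) (· = 0)).2 ?_)
    simp only [Set.ofPred_forall]
    exact isClosed_iInter fun n => (clopenP (c2 _) (· ≠ 0)).1
  · refine isClosed_imp (clopenP (c1 _) (· = 0)).2 ?_
    simp only [Set.ofPred_forall]
    refine isClosed_iInter fun n => ?_
    refine isClosed_imp (clopenP (c2 _) (· = n + 1)).2 ?_
    simp only [Set.ofPred_and, Set.ofPred_forall]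
    refine IsClosed.inter (clopenP (c2 _) (· = 0)).1 ?_
    exact isClosed_iInter fun m => isClosed_iInter fun _ => (clopenP (c2 _) (· ≠ 0)).1
  · simp only [Set.ofPred_forall]
    refine isClosed_iInter fun k => ?_
    refine isClosed_imp (clopenP (c1 _) (· = k + 1)).2 ?_
    simp only [Set.ofPred_and]
    refine IsClosed.inter ?_ (clopenP (c2 _) (· ≤ 1)).1
    have h1 : {q : (ℕ → ℕ) × (ℕ → ℕ) | q.2 (en u) = 0 ↔ bas k q.1} =
        ({q | q.2 (en u) = 0} ∩ {q | bas k q.1}) ∪ ({q | q.2 (en u) ≠ 0} ∩ {q | ¬ bas k q.1}) := by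
      ext q
      simp only [mem_ofPred_eq, mem_union, mem_inter_iff]
      tauto
    rw [h1]
    refine IsClosed.union (IsClosed.inter (clopenP (c2 _) (· = 0)).1 ?_)
      (IsClosed.inter (clopenP (c2 _) (· ≠ 0)).1 ?_)
    · exact (clopenP (c1 _) (· = k.unpair.2)).1
    · exact (clopenP (c1 _) (fun m => ¬ m = k.unpair.2)).1

theorem isClosed_Ev (t : List ℕ) :
    IsClosed {q : (ℕ → ℕ) × (ℕ → ℕ) | q.2 ∈ Ev q.1 q.1 t} := by
  have c2 : ∀ i, Continuous fun q : (ℕ → ℕ) × (ℕ → ℕ) => q.2 i := fun i =>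
    (continuous_apply i).comp continuous_snd
  change IsClosed {q : (ℕ → ℕ) × (ℕ → ℕ) | ∀ u, (InT q.1 t u → Loc q.1 q.1 q.2 u) ∧
    (¬ InT q.1 t u → q.2 (en u) = 0)}
  simp only [Set.ofPred_forall, Set.ofPred_and]
  refine isClosed_iInter fun u => IsClosed.inter ?_ ?_
  · exact isClosed_imp ((isClopen_InT t u).2.preimage continuous_fst) (isClosed_Loc u)
  · exact isClosed_imp ((isClopen_InT t u).compl.2.preimage continuous_fst)
      (clopenP (c2 _) (· = 0)).1

theorem isOpen_ini {X : Type*} [TopologicalSpace X] {f : X → ℕ → ℕ} (hf : Continuous f) (n : ℕ)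
    (u : List ℕ) : IsOpen {x | ini (f x) n = u} := by
  by_cases hu : u.length = n
  · have : {x | ini (f x) n = u} = ⋂ k ∈ Finset.range n, {x | f x k = u.getD k 0} := by
      ext x
      simp only [mem_ofPred_eq, mem_iInter, Finset.mem_range]
      constructor
      · rintro h k hk
        rw [← h]
        simp [ini, List.getD, hk]
      · intro h
        apply List.ext_getElem
        · simp [ini, hu]
        · intro k h1 h2
          have h3 := h k (by omega)
          rw [List.getD_eq_getElem _ _ h2] at h3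
          rw [← h3]
          simp [ini]
    rw [this]
    refine isOpen_biInter_finset fun k _ => ?_
    exact (clopenP ((continuous_apply k).comp hf) (· = u.getD k 0)).2
  · have : {x | ini (f x) n = u} = ∅ := by
      ext x
      simp only [mem_ofPred_eq, mem_empty_iff_false, iff_false]
      rintro rfl
      exact hu (by simp [ini])
    rw [this]
    exact isOpen_empty

theorem isClosed_PS : IsClosed PS := by
  have c1 : ∀ i, Continuous fun q : (ℕ → ℕ) × (ℕ → ℕ) => q.1 i := fun i =>
    (continuous_apply i).comp continuous_fst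
  have c2 : ∀ i, Continuous fun q : (ℕ → ℕ) × (ℕ → ℕ) => q.2 i := fun i =>
    (continuous_apply i).comp continuous_snd
  have cS : Continuous fun q : (ℕ → ℕ) × (ℕ → ℕ) => Sh q.2 :=
    continuous_pi fun i => c2 (i + 1)
  unfold PS
  simp only [Set.ofPred_or, Set.ofPred_and, Set.ofPred_forall]
  refine IsClosed.union (IsClosed.inter (clopenP (c2 0) (· = 0)).1 ?_)
    (IsClosed.inter (clopenP (c2 0) (· = 1)).1 ?_)
  · refine isClosed_iInter fun n => ?_
    -- `q ↦ q.1 (en (ini (Sh q.2) n))` is continuous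
    have h1 : {q : (ℕ → ℕ) × (ℕ → ℕ) | q.1 (en (ini (Sh q.2) n)) = 0} =
        (⋃ u : List ℕ, {q | ini (Sh q.2) n = u} ∩ {q | q.1 (en u) ≠ 0})ᶜ := by
      ext q
      simp only [mem_ofPred_eq, mem_compl_iff, mem_iUnion, mem_inter_iff, not_exists]
      constructor
      · rintro h u ⟨h1, h2⟩
        exact h2 (h1 ▸ h)
      · intro h
        by_contra h2
        exact h _ ⟨rfl, h2⟩
    rw [h1]
    refine (isOpen_iUnion fun u => IsOpen.inter ?_ (clopenP (c1 _) (· ≠ 0)).2).isClosed_compl
    exact isOpen_ini cS n u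
  · exact (isClosed_Ev []).preimage (continuous_fst.prodMk cS)

end Pool.Agent.W923.BH
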