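import Mathlib
import Pool.Agent.W923.BH.Eval

set_option autoImplicit false

/-!
# The trichotomy
-/

namespace Pool.Agent.W923.BH

open Set

/-- The least element. -/
noncomputable def lst (P : ℕ → Prop) : ℕ := sInf {n | P n}

theorem lst_spec {P : ℕ → Prop} (h : ∃ n, P n) : P (lst P) := Nat.sInf_mem (s := {n | P n}) h

theorem lst_min {P : ℕ → Prop} {n : ℕ} (h : n < lst P) : ¬ P n := Nat.notMem_of_lt_sInf h

theorem lst_le {P : ℕ → Prop} {n : ℕ} (h : P n) : lst P ≤ n := Nat.sInf_le h

theorem lst_none {P : ℕ → Prop} (h : ¬ ∃ n, P n) : lst P = 0 := by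
  have : {n | P n} = ∅ := by
    ext n
    simp only [mem_ofPred_eq, mem_empty_iff_false, iff_false]
    exact fun hn => h ⟨n, hn⟩
  simp [lst, this]

theorem lst_eq {P : ℕ → Prop} {n : ℕ} (h : P n) (h' : ∀ m < n, ¬ P m) : lst P = n :=
  le_antisymm (lst_le h) (not_lt.1 fun h2 => h' _ h2 (lst_spec ⟨n, h⟩))

theorem measurable_lst {Ω : Type*} [MeasurableSpace Ω] {P : Ω → ℕ → Prop}
    (h : ∀ n, MeasurableSet {ω | P ω n}) : Measurable fun ω => lst (P ω) := by
  refine measurable_to_countable' fun n => ?_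
  have : (fun ω => lst (P ω)) ⁻¹' {n} =
      ({ω | P ω n} ∩ ⋂ m, ⋂ (_ : m < n), {ω | P ω m}ᶜ) ∪ ({_ω | n = 0} ∩ ⋂ m, {ω | P ω m}ᶜ) := by
    ext ω
    simp only [mem_preimage, mem_singleton_iff, mem_union, mem_inter_iff, mem_iInter,
      mem_compl_iff, mem_ofPred_eq]
    constructor
    · intro h1
      by_cases h2 : ∃ m, P ω m
      · left
        rw [← h1]
        exact ⟨lst_spec h2, fun m hm => lst_min hm⟩
      · right
        rw [lst_none h2] at h1
        exact ⟨h1.symm, fun m hm => h2 ⟨m, hm⟩⟩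
    · rintro (⟨h1, h2⟩ | ⟨h1, h2⟩)
      · exact lst_eq h1 h2
      · rw [h1]
        exact lst_none fun ⟨m, hm⟩ => h2 m hm
  rw [this]
  refine MeasurableSet.union (MeasurableSet.inter (h n) ?_) (MeasurableSet.inter ?_ ?_)
  · exact MeasurableSet.iInter fun m => MeasurableSet.iInter fun _ => (h m).compl
  · exact MeasurableSet.const _
  · exact MeasurableSet.iInter fun m => (h m).compl

/-- The sequence `F` is dominated by a shift of `x`. -/
def Dom (x F : ℕ → ℕ) : Prop := ∃ k, ∀ j, F j ≤ x (j + k)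

theorem Nondom_of_not_Dom {x F : ℕ → ℕ} (h : ¬ Dom x F) : Nondom x F := by
  intro k
  by_contra h2
  push Not at h2
  exact h ⟨k, h2⟩

/-- The value `m` at `i` is taken by a dominated evaluation of the subtree at `t`. -/
def VV (x z : ℕ → ℕ) (t : List ℕ) (i m : ℕ) : Prop :=
  ∃ E ∈ Ev z z t, Dom x E ∧ E i = m

theorem Dom_Sh {x F : ℕ → ℕ} (hx : StrictMono x) : Dom (Sh x) F ↔ Dom x F := by
  constructor
  · rintro ⟨k, hk⟩
    exact ⟨k + 1, fun j => hk j⟩
  · rintro ⟨k, hk⟩
    refine ⟨k, fun j => (hk j).trans ?_⟩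
    exact hx.monotone (by omega)

theorem VV_Sh {x z : ℕ → ℕ} (hx : StrictMono x) : VV (Sh x) z = VV x z := by
  funext t i m
  unfold VV
  simp only [Dom_Sh hx]

/-- Exactly one dominated evaluation. -/
def KV (V : List ℕ → ℕ → ℕ → Prop) (t : List ℕ) : Prop :=
  (∃ m, V t 0 m) ∧ ∀ i m m', V t i m → V t i m' → m = m'

/-- The value. -/
noncomputable def val (V : List ℕ → ℕ → ℕ → Prop) (t : List ℕ) (i : ℕ) : ℕ := lst fun m => V t i m

theorem KV_iff {x z : ℕ → ℕ} {t : List ℕ} : KV (VV x z) t ↔
    ∃ E ∈ Ev z z t, Dom x E ∧ ∀ E' ∈ Ev z z t, Dom x E' → E' = E := by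
  constructor
  · rintro ⟨⟨m, E, hE, hd, -⟩, h2⟩
    refine ⟨E, hE, hd, fun E' hE' hd' => ?_⟩
    funext i
    exact h2 i _ _ ⟨E', hE', hd', rfl⟩ ⟨E, hE, hd, rfl⟩
  · rintro ⟨E, hE, hd, h⟩
    refine ⟨⟨E 0, E, hE, hd, rfl⟩, ?_⟩
    rintro i m m' ⟨E1, h1, h1', rfl⟩ ⟨E2, h2, h2', rfl⟩
    rw [h E1 h1 h1', h E2 h2 h2']

theorem KV_val {x z : ℕ → ℕ} {t : List ℕ} (h : KV (VV x z) t) :
    val (VV x z) t ∈ Ev z z t ∧ Dom x (val (VV x z) t) ∧
      ∀ E' ∈ Ev z z t, Dom x E' → E' = val (VV x z) t := by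
  obtain ⟨E, hE, hd, h2⟩ := KV_iff.1 h
  have : val (VV x z) t = E := by
    funext i
    refine lst_eq ⟨E, hE, hd, rfl⟩ ?_
    rintro m hm ⟨E', hE', hd', h3⟩
    rw [h2 E' hE' hd'] at h3
    omega
  rw [this]
  exact ⟨hE, hd, h2⟩

/-- The nodes of the walk. -/
def On (V : List ℕ → ℕ → ℕ → Prop) (u : List ℕ) : Prop :=
  ¬ KV V [] ∧ ∀ k < u.length, ¬ KV V (u.take (k + 1)) ∧ ∀ j < u.getD k 0, KV V (u.take k ++ [j])

theorem On_nil {V : List ℕ → ℕ → ℕ → Prop} : On V [] ↔ ¬ KV V [] := by
  simp [On]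

theorem On_snoc {V : List ℕ → ℕ → ℕ → Prop} {u : List ℕ} {j : ℕ} :
    On V (u ++ [j]) ↔ On V u ∧ ¬ KV V (u ++ [j]) ∧ ∀ i < j, KV V (u ++ [i]) := by
  have e1 : ∀ k, k ≤ u.length → (u ++ [j]).take k = u.take k := fun k hk =>
    List.take_append_of_le_length hk
  have e2 : ∀ k < u.length, (u ++ [j]).getD k 0 = u.getD k 0 := fun k hk => by
    rw [List.getD_append _ _ _ _ hk]
  have e3 : (u ++ [j]).getD u.length 0 = j := by
    rw [List.getD_append_right _ _ _ _ le_rfl]; simp
  have e4 : (u ++ [j]).take (u.length + 1) = u ++ [j] := by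
    apply List.take_of_length_le; simp
  constructor
  · rintro ⟨h1, h2⟩
    refine ⟨⟨h1, fun k hk => ?_⟩, ?_⟩
    · have := h2 k (by simp only [List.length_append, List.length_singleton]; omega)
      rwa [e1 _ (by omega), e2 _ hk, e1 _ hk.le] at this
    · have := h2 u.length (by simp)
      rwa [e3, e4, e1 _ le_rfl, List.take_length] at this
  · rintro ⟨⟨h1, h2⟩, h3⟩
    refine ⟨h1, fun k hk => ?_⟩
    simp only [List.length_append, List.length_singleton] at hk
    rcases Nat.lt_or_ge k u.length with h | h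
    · rw [e1 _ (by omega), e2 _ h, e1 _ h.le]
      exact h2 k h
    · obtain rfl : k = u.length := by omega
      rw [e3, e4, e1 _ le_rfl, List.take_length]
      exact h3

theorem On_not {V : List ℕ → ℕ → ℕ → Prop} {u : List ℕ} (h : On V u) : ¬ KV V u := by
  rcases List.eq_nil_or_concat u with rfl | ⟨v, j, rfl⟩
  · exact h.1
  · rw [List.concat_eq_append] at h ⊢
    exact (On_snoc.1 h).2.1

theorem On_unique {V : List ℕ → ℕ → ℕ → Prop} : ∀ (n : ℕ) (u v : List ℕ), u.length = n →
    v.length = n → On V u → On V v → u = v := by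
  intro n
  induction n with
  | zero =>
    intro u v hu hv _ _
    rw [List.length_eq_zero_iff] at hu hv
    rw [hu, hv]
  | succ n ih =>
    intro u v hu hv h1 h2
    rcases List.eq_nil_or_concat u with rfl | ⟨u', i, rfl⟩
    · simp at hu
    rcases List.eq_nil_or_concat v with rfl | ⟨v', j, rfl⟩
    · simp at hv
    simp only [List.concat_eq_append] at *
    simp only [List.length_append, List.length_singleton, Nat.add_right_cancel_iff] at hu hv
    obtain ⟨a1, a2, a3⟩ := On_snoc.1 h1
    obtain ⟨b1, b2, b3⟩ := On_snoc.1 h2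
    obtain rfl := ih u' v' hu hv a1 b1
    rcases lt_trichotomy i j with h | h | h
    · exact absurd (b3 i h) a2
    · rw [h]
    · exact absurd (a3 j h) b2

/-- The walk stops at `t`. -/
def Stop (V : List ℕ → ℕ → ℕ → Prop) (t : List ℕ) : Prop := On V t ∧ ∀ n, KV V (t ++ [n])

/-- The branch. -/
noncomputable def bran (V : List ℕ → ℕ → ℕ → Prop) (i : ℕ) : ℕ :=
  lst fun j => ∃ u, u.length = i ∧ On V (u ++ [j])

theorem On_bran {V : List ℕ → ℕ → ℕ → Prop} (h0 : ¬ KV V []) (h : ∀ t, ¬ Stop V t) (n : ℕ) :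
    On V (ini (bran V) n) := by
  induction n with
  | zero => exact On_nil.2 h0
  | succ n ih =>
    rw [ini_succ']
    have h1 := h (ini (bran V) n)
    unfold Stop at h1
    push Not at h1
    have h2 : ∃ j, ¬ KV V (ini (bran V) n ++ [j]) := h1 ih
    have h3 : ∃ j, ∃ u : List ℕ, u.length = n ∧ On V (u ++ [j]) := by
      refine ⟨lst fun j => ¬ KV V (ini (bran V) n ++ [j]), ini (bran V) n, by simp [ini], ?_⟩
      exact On_snoc.2 ⟨ih, lst_spec h2, fun i hi => by
        have := lst_min hi
        exact not_not.1 this⟩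
    obtain ⟨u, hu, hu2⟩ := lst_spec h3
    have h4 : u = ini (bran V) n :=
      On_unique n u _ hu (by simp [ini]) (On_snoc.1 hu2).1 ih
    rw [h4] at hu2
    exact hu2

/-- The glued function. -/
noncomputable def glu (V : List ℕ → ℕ → ℕ → Prop) (t : List ℕ) (i : ℕ) : ℕ := by
  classical
  exact if de i = t then
    (if ∃ n, val V (t ++ [n]) (en (t ++ [n])) = 0 then
      (lst fun n => val V (t ++ [n]) (en (t ++ [n])) = 0) + 1 else 0)
  else if t <+: de i then val V (t ++ [(de i).getD t.length 0]) i else 0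

open Classical in
theorem glu_self (V : List ℕ → ℕ → ℕ → Prop) (t : List ℕ) : glu V t (en t) =
    if ∃ n, val V (t ++ [n]) (en (t ++ [n])) = 0 then
      (lst fun n => val V (t ++ [n]) (en (t ++ [n])) = 0) + 1 else 0 := by
  unfold glu
  rw [if_pos (de_en t)]

theorem getD_child {t u : List ℕ} {n : ℕ} (h : t ++ [n] <+: u) :
    t <+: u ∧ u ≠ t ∧ u.getD t.length 0 = n := by
  obtain ⟨v, rfl⟩ := h
  refine ⟨⟨[n] ++ v, by simp⟩, fun h => ?_, ?_⟩
  · have := congrArg List.length h
    simp at this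
  · simp

theorem child_getD {t u : List ℕ} (h : t <+: u) (h2 : u ≠ t) :
    t ++ [u.getD t.length 0] <+: u := by
  obtain ⟨v, rfl⟩ := h
  rcases v with _ | ⟨a, v⟩
  · simp at h2
  · exact ⟨v, by simp⟩

theorem glu_child (V : List ℕ → ℕ → ℕ → Prop) {t u : List ℕ} {n : ℕ} (h : t ++ [n] <+: u) :
    glu V t (en u) = val V (t ++ [n]) (en u) := by
  obtain ⟨h1, h2, h3⟩ := getD_child h
  unfold glu
  rw [de_en, if_neg h2, if_pos h1, h3]

theorem glu_out (V : List ℕ → ℕ → ℕ → Prop) {t u : List ℕ} (h : ¬ t <+: u) :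
    glu V t (en u) = 0 := by
  unfold glu
  rw [de_en, if_neg (fun h2 => h (by rw [h2])), if_neg h]

/-! ### Evaluations at a node and at its children -/

theorem InT_child {z : ℕ → ℕ} {t u : List ℕ} {n : ℕ} (hz : z (en t) = 0) (h : t ++ [n] <+: u) :
    InT z t u ↔ InT z (t ++ [n]) u := by
  obtain ⟨v, rfl⟩ := h
  constructor
  · rintro ⟨-, h2⟩
    refine ⟨⟨v, rfl⟩, fun k hk hk2 => h2 k hk ?_⟩
    simp only [List.length_append, List.length_singleton] at hk2
    omega
  · rintro ⟨-, h2⟩
    refine ⟨⟨[n] ++ v, by simp⟩, fun k hk hk2 => ?_⟩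
    rcases Nat.lt_or_ge t.length k with h | h
    · refine h2 k hk ?_
      simp only [List.length_append, List.length_singleton]
      omega
    · obtain rfl : k = t.length := by omega
      rw [List.append_assoc, List.take_left' rfl]
      exact hz

theorem InT_cases {z : ℕ → ℕ} {t u : List ℕ} (h : InT z t u) : u = t ∨ ∃ n, t ++ [n] <+: u := by
  by_cases h2 : u = t
  · exact Or.inl h2
  · exact Or.inr ⟨_, child_getD h.1 h2⟩

/-- Restriction to a child. -/
def resE (E : ℕ → ℕ) (t : List ℕ) (i : ℕ) : ℕ := open Classical in if t <+: de i then E i else 0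

theorem resE_mem {z E : ℕ → ℕ} {t : List ℕ} (n : ℕ) (hz : z (en t) = 0) (hE : E ∈ Ev z z t) :
    resE E (t ++ [n]) ∈ Ev z z (t ++ [n]) := by
  intro u
  constructor
  · intro h
    have h1 : t ++ [n] <+: u := h.1
    have h2 := (hE u).1 ((InT_child hz h1).2 h)
    have e1 : resE E (t ++ [n]) (en u) = E (en u) := by
      unfold resE
      rw [de_en, if_pos h1]
    have e2 : ∀ m, resE E (t ++ [n]) (en (u ++ [m])) = E (en (u ++ [m])) := by
      intro m
      unfold resE
      rw [de_en, if_pos (h1.trans (List.prefix_append _ _))]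
    unfold Loc at h2 ⊢
    simp only [e1, e2]
    exact h2
  · intro h
    by_cases h1 : t ++ [n] <+: u
    · have h2 := (hE u).2 (fun h3 => h ((InT_child hz h1).1 h3))
      unfold resE
      rw [de_en, if_pos h1, h2]
    · unfold resE
      rw [de_en, if_neg h1]

theorem resE_le (E : ℕ → ℕ) (t : List ℕ) (i : ℕ) : resE E t i ≤ E i := by
  unfold resE
  split_ifs
  · exact le_rfl
  · exact Nat.zero_le _

theorem InT_leaf {z : ℕ → ℕ} {t u : List ℕ} (hz : z (en t) ≠ 0) : InT z t u ↔ u = t := by
  constructor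
  · rintro ⟨⟨v, rfl⟩, h2⟩
    rcases v with _ | ⟨a, v⟩
    · simp
    · refine absurd (h2 t.length (by simp) le_rfl) ?_
      rw [List.take_left' rfl]
      exact hz
  · rintro rfl
    exact InT_self _ _

theorem KV_leaf {x z : ℕ → ℕ} (hx : StrictMono x) {t : List ℕ} (hz : z (en t) ≠ 0) :
    KV (VV x z) t := by
  classical
  rw [KV_iff]
  obtain ⟨k, hk⟩ := Nat.exists_eq_succ_of_ne_zero hz
  refine ⟨fun i => if i = en t then (if bas k z then 0 else 1) else 0, ?_, ?_, ?_⟩
  · intro u
    rw [InT_leaf hz]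
    constructor
    · rintro rfl
      refine ⟨fun h => absurd h hz, fun h => absurd h hz, fun k' hk' => ?_⟩
      obtain rfl : k = k' := by
        rw [hk] at hk'
        omega
      simp only [if_true]
      split_ifs with h
      · exact ⟨by simpa using h, by omega⟩
      · exact ⟨by simpa using h, by omega⟩
    · intro h
      exact if_neg (fun h2 => h (en_inj.1 h2))
  · refine ⟨1, fun j => ?_⟩
    have h1 : j + 1 ≤ x (j + 1) := hx.id_le _
    dsimp only
    split_ifs <;> omega
  · intro E' hE' _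
    funext i
    by_cases hi : i = en t
    · rw [if_pos hi]
      have h1 := ((hE' t).1 (InT_self _ _)).2.2 k hk
      rw [hi]
      split_ifs with h2
      · exact h1.1.2 h2
      · have h3 : E' (en t) ≠ 0 := fun h => h2 (h1.1.1 h)
        have h4 := h1.2
        omega
    · rw [if_neg hi]
      have h1 := (hE' (de i)).2 (fun h => hi (by rw [← (InT_leaf hz).1 h, en_de]))
      rwa [en_de] at h1

theorem glu_mem {x z : ℕ → ℕ} {t : List ℕ} (hz : z (en t) = 0)
    (h : ∀ n, KV (VV x z) (t ++ [n])) : glu (VV x z) t ∈ Ev z z t := by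
  classical
  intro u
  constructor
  · intro hu
    rcases InT_cases hu with rfl | ⟨n, hn⟩
    · have e : ∀ m, glu (VV x z) u (en (u ++ [m])) = val (VV x z) (u ++ [m]) (en (u ++ [m])) :=
        fun m => glu_child _ List.prefix_rfl
      refine ⟨fun _ h2 m => ?_, fun _ m hm => ?_, fun k hk => absurd hk (by omega)⟩
      · rw [glu_self] at h2
        rw [e]
        intro h3
        rw [if_pos ⟨m, h3⟩] at h2
        omega
      · rw [glu_self] at hm
        by_cases h3 : ∃ n, val (VV x z) (u ++ [n]) (en (u ++ [n])) = 0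
        · rw [if_pos h3, Nat.add_right_cancel_iff] at hm
          subst hm
          refine ⟨?_, fun m hm => ?_⟩
          · rw [e]
            exact lst_spec h3
          · rw [e]
            exact lst_min (P := fun n => val (VV x z) (u ++ [n]) (en (u ++ [n])) = 0) hm
        · rw [if_neg h3] at hm
          omega
    · have h1 := ((KV_val (h n)).1 u).1 ((InT_child hz hn).1 hu)
      have e1 := glu_child (VV x z) hn
      have e2 : ∀ m, glu (VV x z) t (en (u ++ [m])) = val (VV x z) (t ++ [n]) (en (u ++ [m])) :=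
        fun m => glu_child _ (hn.trans (List.prefix_append _ _))
      unfold Loc at h1 ⊢
      simp only [e1, e2]
      exact h1
  · intro hu
    by_cases h1 : t <+: u
    · by_cases h2 : u = t
      · exact absurd (h2 ▸ InT_self z u) (h2 ▸ hu)
      · have h3 := child_getD h1 h2
        rw [glu_child _ h3]
        exact ((KV_val (h _)).1 u).2 (fun h4 => hu ((InT_child hz h3).2 h4))
    · exact glu_out _ h1

theorem eq_glu {x z : ℕ → ℕ} {t : List ℕ} (hz : z (en t) = 0)
    (h : ∀ n, KV (VV x z) (t ++ [n])) {E : ℕ → ℕ} (hE : E ∈ Ev z z t) (hd : Dom x E) :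
    E = glu (VV x z) t := by
  classical
  have key : ∀ n, resE E (t ++ [n]) = val (VV x z) (t ++ [n]) := by
    intro n
    refine (KV_val (h n)).2.2 _ (resE_mem n hz hE) ?_
    obtain ⟨k, hk⟩ := hd
    exact ⟨k, fun j => (resE_le _ _ _).trans (hk j)⟩
  have key2 : ∀ n u, t ++ [n] <+: u → E (en u) = val (VV x z) (t ++ [n]) (en u) := by
    intro n u hu
    rw [← key n]
    unfold resE
    rw [de_en, if_pos hu]
  funext i
  obtain ⟨u, rfl⟩ : ∃ u, i = en u := ⟨de i, (en_de i).symm⟩
  by_cases h1 : t <+: u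
  · by_cases h2 : u = t
    · subst h2
      have hL := (hE u).1 (InT_self _ _)
      rw [glu_self]
      have key3 : ∀ n, val (VV x z) (u ++ [n]) (en (u ++ [n])) = E (en (u ++ [n])) := fun n =>
        (key2 n _ List.prefix_rfl).symm
      simp only [key3]
      by_cases h3 : E (en u) = 0
      · rw [if_neg, h3]
        rintro ⟨n, hn⟩
        exact hL.1 hz h3 n hn
      · obtain ⟨n, hn⟩ := Nat.exists_eq_succ_of_ne_zero h3
        obtain ⟨h4, h5⟩ := hL.2.1 hz n hn
        rw [if_pos ⟨n, h4⟩, hn]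
        congr 1
        exact (lst_eq (P := fun n => E (en (u ++ [n])) = 0) h4 h5).symm
    · have h3 := child_getD h1 h2
      rw [glu_child _ h3]
      exact key2 _ _ h3
  · rw [glu_out _ h1]
    exact (hE u).2 (fun h2 => h1 h2.1)

theorem Stop_nondom {x z : ℕ → ℕ} (hx : StrictMono x) {t : List ℕ} (h : Stop (VV x z) t) :
    Nondom x (glu (VV x z) t) := by
  apply Nondom_of_not_Dom
  intro hd
  have hz : z (en t) = 0 := by
    by_contra h2
    exact On_not h.1 (KV_leaf hx h2)
  refine On_not h.1 (KV_iff.2 ⟨_, glu_mem hz h.2, hd, fun E' hE' hd' => eq_glu hz h.2 hE' hd'⟩)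

/-! ### The three functions -/

/-- The case where the walk stops. -/
def SV (V : List ℕ → ℕ → ℕ → Prop) : Prop := ∃ c, Stop V (de c)

/-- The sequence which is not dominated. -/
noncomputable def FV (V : List ℕ → ℕ → ℕ → Prop) : ℕ → ℕ := glu V (de (lst fun c => Stop V (de c)))

/-- The element of the fibre of `PS`. -/
noncomputable def WV (V : List ℕ → ℕ → ℕ → Prop) (i : ℕ) : ℕ :=
  open Classical in if KV V [] then (if i = 0 then 1 else val V [] (i - 1)) else
    (if i = 0 then 0 else bran V (i - 1))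

theorem SV_nondom {x z : ℕ → ℕ} (hx : StrictMono x) (h : SV (VV x z)) :
    Nondom x (FV (VV x z)) := Stop_nondom hx (lst_spec h)

theorem WV_mem {x z : ℕ → ℕ} (hx : StrictMono x) (h : ¬ SV (VV x z)) :
    (z, WV (VV x z)) ∈ PS := by
  by_cases h1 : KV (VV x z) []
  · right
    refine ⟨by simp [WV, h1], ?_⟩
    have : Sh (WV (VV x z)) = val (VV x z) [] := by
      funext i
      simp [WV, h1, Sh]
    change Sh (WV (VV x z)) ∈ _
    rw [this]
    exact (KV_val h1).1
  · left
    refine ⟨by simp [WV, h1], fun n => ?_⟩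
    have : Sh (WV (VV x z)) = bran (VV x z) := by
      funext i
      simp [WV, h1, Sh]
    change z (en (ini (Sh (WV (VV x z))) n)) = 0
    rw [this]
    have h2 : ∀ t, ¬ Stop (VV x z) t := fun t ht => h ⟨en t, by rwa [de_en]⟩
    have h3 := On_not (On_bran h1 h2 n)
    by_contra h4
    exact h3 (KV_leaf hx h4)

/-! ### Measurability -/

section meas

variable {Ω : Type*} [MeasurableSpace Ω] {V : Ω → List ℕ → ℕ → ℕ → Prop}

theorem meas_KV (hV : ∀ t i m, MeasurableSet {ω | V ω t i m}) (t : List ℕ) :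
    MeasurableSet {ω | KV (V ω) t} := by
  unfold KV
  simp only [Set.ofPred_and, Set.ofPred_forall, Set.ofPred_exists]
  refine MeasurableSet.inter (MeasurableSet.iUnion fun m => hV _ _ _) ?_
  refine MeasurableSet.iInter fun i => MeasurableSet.iInter fun m => MeasurableSet.iInter fun m' => ?_
  exact MeasurableSet.imp (hV _ _ _) (MeasurableSet.imp (hV _ _ _) (MeasurableSet.const _))

theorem meas_val (hV : ∀ t i m, MeasurableSet {ω | V ω t i m}) (t : List ℕ) (i : ℕ) :
    Measurable fun ω => val (V ω) t i := measurable_lst fun m => hV t i m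

theorem meas_On (hV : ∀ t i m, MeasurableSet {ω | V ω t i m}) (u : List ℕ) :
    MeasurableSet {ω | On (V ω) u} := by
  unfold On
  simp only [Set.ofPred_and, Set.ofPred_forall]
  refine MeasurableSet.inter (meas_KV hV _).compl ?_
  refine MeasurableSet.iInter fun k => MeasurableSet.iInter fun _ => ?_
  refine MeasurableSet.inter (meas_KV hV _).compl ?_
  exact MeasurableSet.iInter fun j => MeasurableSet.iInter fun _ => meas_KV hV _

theorem meas_Stop (hV : ∀ t i m, MeasurableSet {ω | V ω t i m}) (t : List ℕ) :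
    MeasurableSet {ω | Stop (V ω) t} := by
  unfold Stop
  simp only [Set.ofPred_and, Set.ofPred_forall]
  exact MeasurableSet.inter (meas_On hV _) (MeasurableSet.iInter fun n => meas_KV hV _)

theorem meas_SV (hV : ∀ t i m, MeasurableSet {ω | V ω t i m}) : MeasurableSet {ω | SV (V ω)} := by
  unfold SV
  simp only [Set.ofPred_exists]
  exact MeasurableSet.iUnion fun c => meas_Stop hV _

theorem meas_glu (hV : ∀ t i m, MeasurableSet {ω | V ω t i m}) (t : List ℕ) (i : ℕ) :
    Measurable fun ω => glu (V ω) t i := by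
  classical
  unfold glu
  by_cases h1 : de i = t
  · simp only [if_pos h1]
    refine Measurable.ite ?_ ?_ measurable_const
    · simp only [Set.ofPred_exists]
      exact MeasurableSet.iUnion fun n => meas_val hV _ _ (measurableSet_singleton 0)
    · exact (measurable_lst fun n => meas_val hV _ _ (measurableSet_singleton 0)).add_const 1
  · simp only [if_neg h1]
    by_cases h2 : t <+: de i
    · simp only [if_pos h2]
      exact meas_val hV _ _
    · simp only [if_neg h2]
      exact measurable_const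

theorem meas_FV (hV : ∀ t i m, MeasurableSet {ω | V ω t i m}) : Measurable fun ω => FV (V ω) := by
  rw [measurable_pi_iff]
  intro i
  have h1 : Measurable fun ω => lst fun c => Stop (V ω) (de c) :=
    measurable_lst fun c => meas_Stop hV _
  have h2 : Measurable fun p : ℕ × Ω => glu (V p.2) (de p.1) i :=
    measurable_from_prod_countable_right fun c => meas_glu hV (de c) i
  exact h2.comp (h1.prodMk measurable_id)

theorem meas_WV (hV : ∀ t i m, MeasurableSet {ω | V ω t i m}) : Measurable fun ω => WV (V ω) := by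
  classical
  rw [measurable_pi_iff]
  intro i
  unfold WV
  refine Measurable.ite (meas_KV hV _) ?_ ?_
  · by_cases h : i = 0
    · simp only [if_pos h]; exact measurable_const
    · simp only [if_neg h]; exact meas_val hV _ _
  · by_cases h : i = 0
    · simp only [if_pos h]; exact measurable_const
    · simp only [if_neg h]
      refine measurable_lst fun j => ?_
      simp only [Set.ofPred_exists, Set.ofPred_and]
      exact MeasurableSet.iUnion fun u => MeasurableSet.inter (MeasurableSet.const _) (meas_On hV _)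

end meas

end Pool.Agent.W923.BH
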