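import Mathlib
import Pool.Agent.W923.BH.Tri

set_option autoImplicit false

/-!
# Measurability of the sets of dominated evaluations
-/

namespace Pool.Agent.W923.BH

open Set Filter Topology

theorem closed_proj {C : Set (((ℕ → ℕ) × (ℕ → ℕ)) × (ℕ → ℕ))} (hC : IsClosed C) (k : ℕ) :
    IsClosed {ω : (ℕ → ℕ) × (ℕ → ℕ) | ∃ E, (ω, E) ∈ C ∧ ∀ j, E j ≤ ω.1 (j + k)} := by
  apply IsSeqClosed.isClosed
  intro ω ω' hmem hlim
  choose E hE1 hE2 using hmem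
  have h1 : ∀ j, Tendsto (fun n => (ω n).1 (j + k)) atTop (𝓝 (ω'.1 (j + k))) := fun j =>
    ((continuous_apply (j + k)).comp continuous_fst).continuousAt.tendsto.comp hlim
  have h2 : ∀ j, ∃ B, ∀ n, (ω n).1 (j + k) ≤ B := by
    intro j
    obtain ⟨B, hB⟩ := (h1 j).bddAbove_range
    exact ⟨B, fun n => hB ⟨n, rfl⟩⟩
  choose B hB using h2
  have hK : IsCompact (Set.pi univ fun j => Iic (B j)) :=
    isCompact_univ_pi fun j => (finite_Iic (B j)).isCompact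
  obtain ⟨E', -, φ, hφ, hlim2⟩ := hK.tendsto_subseq (x := E)
    (fun n j _ => (hE2 n j).trans (hB j n))
  have h3 : IsClosed (C ∩ {p : ((ℕ → ℕ) × (ℕ → ℕ)) × (ℕ → ℕ) | ∀ j, p.2 j ≤ p.1.1 (j + k)}) := by
    refine hC.inter ?_
    simp only [Set.ofPred_forall]
    refine isClosed_iInter fun j => ?_
    exact isClosed_le ((continuous_apply j).comp continuous_snd)
      ((continuous_apply (j + k)).comp (continuous_fst.comp continuous_fst))
  have h4 : Tendsto (fun n => (ω (φ n), E (φ n))) atTop (𝓝 (ω', E')) :=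
    (hlim.comp hφ.tendsto_atTop).prodMk_nhds hlim2
  have h5 := h3.mem_of_tendsto h4 (Eventually.of_forall fun n => ⟨hE1 (φ n), hE2 (φ n)⟩)
  exact ⟨E', h5.1, h5.2⟩

theorem meas_VV (t : List ℕ) (i m : ℕ) :
    MeasurableSet {ω : (ℕ → ℕ) × (ℕ → ℕ) | VV ω.1 ω.2 t i m} := by
  have h1 : {ω : (ℕ → ℕ) × (ℕ → ℕ) | VV ω.1 ω.2 t i m} =
      ⋃ k, {ω : (ℕ → ℕ) × (ℕ → ℕ) | ∃ E, (ω, E) ∈
        {p : ((ℕ → ℕ) × (ℕ → ℕ)) × (ℕ → ℕ) | p.2 ∈ Ev p.1.2 p.1.2 t ∧ p.2 i = m} ∧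
          ∀ j, E j ≤ ω.1 (j + k)} := by
    ext ω
    simp only [mem_ofPred_eq, mem_iUnion]
    constructor
    · rintro ⟨E, h1, ⟨k, hk⟩, h2⟩
      exact ⟨k, E, ⟨h1, h2⟩, hk⟩
    · rintro ⟨k, E, ⟨h1, h2⟩, hk⟩
      exact ⟨E, h1, ⟨k, hk⟩, h2⟩
  rw [h1]
  refine MeasurableSet.iUnion fun k => (closed_proj ?_ k).measurableSet
  rw [Set.ofPred_and]
  refine IsClosed.inter ?_ ?_
  · exact (isClosed_Ev t).preimage ((continuous_snd.comp continuous_fst).prodMk continuous_snd)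
  · exact (clopenP ((continuous_apply i).comp continuous_snd) (· = m)).1

end Pool.Agent.W923.BH
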