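import Mathlib

set_option autoImplicit false

/-!
# The doubling map on the circle and its marker sets
-/

namespace Pool.Agent.W923.BH

open Set Filter Topology MeasureTheory

/-- The coordinate in `[0, 1)`. -/
noncomputable def fr (y : UnitAddCircle) : ℝ := (AddCircle.equivIco (1 : ℝ) 0 y : ℝ)

theorem fr_mk {r : ℝ} (h0 : 0 ≤ r) (h1 : r < 1) : fr (r : UnitAddCircle) = r :=
  AddCircle.equivIco_coe_of_mem (p := (1 : ℝ)) (a := 0) ⟨h0, by simpa using h1⟩

theorem mk_fr (y : UnitAddCircle) : ((fr y : ℝ) : UnitAddCircle) = y := AddCircle.coe_equivIco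

theorem fr_nonneg (y : UnitAddCircle) : 0 ≤ fr y := (AddCircle.equivIco (1 : ℝ) 0 y).2.1

theorem fr_lt (y : UnitAddCircle) : fr y < 1 := by
  have h := (AddCircle.equivIco (1 : ℝ) 0 y).2.2
  have h2 : fr y < 0 + 1 := h
  linarith

theorem measurable_fr : Measurable fr :=
  measurable_subtype_coe.comp (AddCircle.measurableEquivIco (1 : ℝ) 0).measurable

/-- The doubling map. -/
def Td (y : UnitAddCircle) : UnitAddCircle := 2 • y

theorem ergodic_Td : Ergodic Td (volume : Measure UnitAddCircle) :=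
  AddCircle.ergodic_nsmul (T := 1) (n := 2) (by norm_num)

theorem measurable_Td : Measurable Td := ergodic_Td.measurable

/-- The marker sets. -/
def Yn (n : ℕ) : Set UnitAddCircle :=
  {y | 1 / 4 + 1 / ((n : ℝ) + 5) < fr y ∧ fr y < 1 / 4 + 1 / ((n : ℝ) + 4)}

theorem measurableSet_Yn (n : ℕ) : MeasurableSet (Yn n) :=
  MeasurableSet.inter (measurableSet_lt measurable_const measurable_fr)
    (measurableSet_lt measurable_fr measurable_const)

theorem Yn_bound {n : ℕ} {y : UnitAddCircle} (h : y ∈ Yn n) : 1 / 4 < fr y ∧ fr y < 1 / 2 := by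
  obtain ⟨h1, h2⟩ := h
  have h3 : (0 : ℝ) < 1 / ((n : ℝ) + 5) := by positivity
  have h4 : 1 / ((n : ℝ) + 4) ≤ 1 / 4 := by
    apply one_div_le_one_div_of_le (by norm_num)
    have : (0 : ℝ) ≤ n := n.cast_nonneg
    linarith
  constructor <;> linarith

theorem Yn_inj_aux {n m : ℕ} (hnm : n < m) {y : UnitAddCircle} (h1 : y ∈ Yn n) (h2 : y ∈ Yn m) :
    False := by
  have h3 : 1 / ((m : ℝ) + 4) ≤ 1 / ((n : ℝ) + 5) := by
    apply one_div_le_one_div_of_le (by positivity)
    have : (n : ℝ) + 1 ≤ m := by exact_mod_cast hnm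
    linarith
  have h4 := h1.1
  have h5 := h2.2
  linarith

theorem Yn_inj {n m : ℕ} {y : UnitAddCircle} (h1 : y ∈ Yn n) (h2 : y ∈ Yn m) : n = m := by
  rcases lt_trichotomy n m with h | h | h
  · exact (Yn_inj_aux h h1 h2).elim
  · exact h
  · exact (Yn_inj_aux h h2 h1).elim

theorem fr_Td {y : UnitAddCircle} (h : fr y < 1 / 2) : fr (Td y) = 2 * fr y := by
  have h1 : Td y = ((2 * fr y : ℝ) : UnitAddCircle) := by
    conv_lhs => rw [← mk_fr y]
    unfold Td
    rw [two_nsmul, two_mul]
    rfl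
  rw [h1]
  have h0 := fr_nonneg y
  exact fr_mk (by linarith) (by linarith)

theorem Yn_Td {n m : ℕ} {y : UnitAddCircle} (h : y ∈ Yn n) : Td y ∉ Yn m := by
  intro h2
  obtain ⟨h3, h4⟩ := Yn_bound h
  obtain ⟨h5, h6⟩ := Yn_bound h2
  rw [fr_Td h4] at h6
  linarith

theorem measure_Yn (n : ℕ) : (volume : Measure UnitAddCircle) (Yn n) ≠ 0 := by
  have h1 := (UnitAddCircle.measurePreserving_mk 0).measure_preimage
    (measurableSet_Yn n).nullMeasurableSet
  rw [← h1]
  have hn : (0 : ℝ) ≤ n := n.cast_nonneg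
  have h3 : (0 : ℝ) < 1 / ((n : ℝ) + 5) := by positivity
  have h4 : 1 / ((n : ℝ) + 4) ≤ 1 / 4 := by
    apply one_div_le_one_div_of_le (by norm_num)
    linarith
  have h5 : 1 / ((n : ℝ) + 5) < 1 / ((n : ℝ) + 4) := by
    apply one_div_lt_one_div_of_lt (by positivity)
    linarith
  have hsub : Ioo (1 / 4 + 1 / ((n : ℝ) + 5)) (1 / 4 + 1 / ((n : ℝ) + 4)) ⊆
      ((↑) : ℝ → UnitAddCircle) ⁻¹' Yn n ∩ Ioc 0 (0 + 1) := by
    intro r hr
    have hr0 : 0 ≤ r := by linarith [hr.1]
    have hr1 : r < 1 := by linarith [hr.2]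
    refine ⟨?_, by linarith [hr.1], by linarith [hr.2]⟩
    change _ < fr (r : UnitAddCircle) ∧ fr (r : UnitAddCircle) < _
    rw [fr_mk hr0 hr1]
    exact hr
  intro h0
  have hm : MeasurableSet (((↑) : ℝ → UnitAddCircle) ⁻¹' Yn n) :=
    (measurableSet_Yn n).preimage (UnitAddCircle.measurePreserving_mk 0).measurable
  rw [Measure.restrict_apply hm] at h0
  have h6 := measure_mono_null hsub h0
  rw [Real.volume_Ioo] at h6
  rw [ENNReal.ofReal_eq_zero] at h6
  linarith

/-- The points which return infinitely often to each marker set. -/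
def Yg : Set UnitAddCircle := {y | ∀ n m, ∃ j, m ≤ j ∧ Td^[j] y ∈ Yn n}

theorem measurableSet_Yg : MeasurableSet Yg := by
  unfold Yg
  simp only [Set.ofPred_forall, Set.ofPred_exists, Set.ofPred_and]
  refine MeasurableSet.iInter fun n => MeasurableSet.iInter fun m => MeasurableSet.iUnion fun j => ?_
  exact MeasurableSet.inter (MeasurableSet.const _)
    ((measurable_Td.iterate j) (measurableSet_Yn n))

theorem Yg_Td {y : UnitAddCircle} (h : y ∈ Yg) : Td y ∈ Yg := by
  intro n m
  obtain ⟨j, hj, h2⟩ := h n (m + 1)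
  obtain ⟨i, rfl⟩ : ∃ i, j = i + 1 := ⟨j - 1, by omega⟩
  exact ⟨i, by omega, h2⟩

theorem ae_Yg : ∀ᵐ y ∂(volume : Measure UnitAddCircle), y ∈ Yg := by
  have key : ∀ n, ∀ᵐ y ∂(volume : Measure UnitAddCircle),
      ∀ m, ∃ j, m ≤ j ∧ Td^[j] y ∈ Yn n := by
    intro n
    set R : Set UnitAddCircle := {y | ∀ m, ∃ j, m ≤ j ∧ Td^[j] y ∈ Yn n} with hR
    have hRm : MeasurableSet R := by
      rw [hR]
      simp only [Set.ofPred_forall, Set.ofPred_exists, Set.ofPred_and]
      refine MeasurableSet.iInter fun m => MeasurableSet.iUnion fun j => ?_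
      exact MeasurableSet.inter (MeasurableSet.const _)
        ((measurable_Td.iterate j) (measurableSet_Yn n))
    have hinv : Td ⁻¹' R = R := by
      ext y
      constructor
      · intro h m
        obtain ⟨j, hj, h2⟩ := h m
        exact ⟨j + 1, by omega, h2⟩
      · intro h m
        obtain ⟨j, hj, h2⟩ := h (m + 1)
        obtain ⟨i, rfl⟩ : ∃ i, j = i + 1 := ⟨j - 1, by omega⟩
        exact ⟨i, by omega, h2⟩
    rcases ergodic_Td.toPreErgodic.ae_empty_or_univ hRm hinv with h | h
    · exfalso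
      have h1 := ergodic_Td.toMeasurePreserving.conservative.ae_mem_imp_frequently_image_mem
        (measurableSet_Yn n).nullMeasurableSet
      apply measure_Yn n
      rw [measure_eq_zero_iff_ae_notMem]
      filter_upwards [h1, eventuallyEq_empty.1 h] with y h2 h3 h4
      apply h3
      intro m
      exact (frequently_atTop.1 (h2 h4)) m
    · filter_upwards [eventuallyEq_univ.1 h] with y hy using hy
  have := ae_all_iff.2 key
  filter_upwards [this] with y hy n m using hy n m

theorem no_two_coloring {A : Set UnitAddCircle} (hA : MeasurableSet A)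
    (h : ∀ᵐ y ∂(volume : Measure UnitAddCircle), (y ∈ A ↔ Td y ∉ A)) : False := by
  have h1 : Td ⁻¹' A =ᵐ[(volume : Measure UnitAddCircle)] Aᶜ := by
    filter_upwards [h] with y h2
    apply propext
    change Td y ∈ A ↔ y ∉ A
    tauto
  have h4 : (volume : Measure UnitAddCircle) A = (volume : Measure UnitAddCircle) Aᶜ := by
    have h41 := measure_congr h1
    have h42 := ergodic_Td.toMeasurePreserving.measure_preimage hA.nullMeasurableSet
    exact h42.symm.trans h41
  have h5 : Ergodic (fun y : UnitAddCircle => (4 : ℕ) • y) volume :=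
    AddCircle.ergodic_nsmul (T := 1) (n := 4) (by norm_num)
  have h6 : (fun y : UnitAddCircle => (4 : ℕ) • y) ⁻¹' A =ᵐ[volume] A := by
    filter_upwards [h, ergodic_Td.toMeasurePreserving.quasiMeasurePreserving.ae h] with y h2 h3
    have h7 : Td (Td y) = (4 : ℕ) • y := by
      unfold Td
      rw [← mul_nsmul]
    rw [h7] at h3
    apply propext
    change (4 : ℕ) • y ∈ A ↔ y ∈ A
    tauto
  rcases h5.quasiErgodic.ae_empty_or_univ₀ hA.nullMeasurableSet h6 with h7 | h7
  · have h8 : (volume : Measure UnitAddCircle) A = 0 := by rw [measure_congr h7, measure_empty]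
    have h9 : (volume : Measure UnitAddCircle) Aᶜ = 0 := by rw [← h4, h8]
    have h10 := measure_univ_le_add_compl (μ := (volume : Measure UnitAddCircle)) A
    rw [h8, h9, UnitAddCircle.measure_univ] at h10
    simp at h10
  · have h8 : (volume : Measure UnitAddCircle) Aᶜ = 0 := by
      rw [measure_congr h7.compl]; simp
    have h9 : (volume : Measure UnitAddCircle) A = 0 := by rw [h4, h8]
    have h10 := measure_univ_le_add_compl (μ := (volume : Measure UnitAddCircle)) A
    rw [h8, h9, UnitAddCircle.measure_univ] at h10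
    simp at h10

example : StandardBorelSpace UnitAddCircle := inferInstance
example : StandardBorelSpace ((ℕ → ℕ) × ℕ × UnitAddCircle × ℕ) := inferInstance

end Pool.Agent.W923.BH
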