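import Mathlib
import Pool.Agent.W923.BH.Closed
import Pool.Agent.W923.BH.Circle

set_option autoImplicit false

/-!
# The second graph
-/

namespace Pool.Agent.W923.BH

open Set Filter Topology MeasureTheory

/-- The vertices of the second graph: `(z, k, y, tag)`. -/
abbrev HV : Type := (ℕ → ℕ) × ℕ × UnitAddCircle × ℕ

/-- Consistency of the finite sequence `u` with the fibre of `PS` over `z`. -/
def Ok (z : ℕ → ℕ) (u : List ℕ) : Prop :=
  ∃ q ∈ PS, ini q.1 u.length = ini z u.length ∧ ini q.2 u.length = u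

/-- The point `y` belongs to the allowed marker set with number `n`, at level `k`. -/
def Alw (z : ℕ → ℕ) (k : ℕ) (y : UnitAddCircle) (n : ℕ) : Prop :=
  y ∈ Yn n ∧ (de n).length = k ∧ Ok z (de n)

/-- The generating relation of the second graph. -/
def RR (p q : HV) : Prop :=
  p.1 = q.1 ∧
    ((p.2.2.2 = 4 ∧ q.2.2.2 = 5) ∨ (p.2.2.2 = 4 ∧ q.2.2.2 = 6) ∨ (p.2.2.2 = 5 ∧ q.2.2.2 = 6) ∨
     (p.2.1 = q.2.1 ∧ p.2.2.1 = q.2.2.1 ∧
       ((p.2.2.2 = 0 ∧ q.2.2.2 = 6 ∧ ∀ n, ¬ Alw p.1 p.2.1 p.2.2.1 n) ∨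
        (p.2.2.2 = 0 ∧ q.2.2.2 = 1) ∨ (p.2.2.2 = 0 ∧ q.2.2.2 = 2) ∨
        (p.2.2.2 = 1 ∧ q.2.2.2 = 5) ∨ (p.2.2.2 = 2 ∧ q.2.2.2 = 4) ∨
        (p.2.2.2 = 1 ∧ q.2.2.2 = 3) ∨ (p.2.2.2 = 2 ∧ q.2.2.2 = 3))) ∨
     (p.2.1 = q.2.1 ∧ p.2.2.2 = 0 ∧ q.2.2.2 = 0 ∧ p.2.2.1 ∈ Yg ∧ q.2.2.1 = Td p.2.2.1) ∨
     (q.2.1 = p.2.1 + 1 ∧ p.2.2.2 = 3 ∧ q.2.2.2 = 3 ∧
       ∃ n m, Alw p.1 p.2.1 p.2.2.1 n ∧ Alw q.1 q.2.1 q.2.2.1 m ∧ (de m).take p.2.1 ≠ de n))

/-- The second graph. -/
def GH : SimpleGraph HV := SimpleGraph.fromRel RR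

theorem GH_adj {p q : HV} : GH.Adj p q ↔ p ≠ q ∧ (RR p q ∨ RR q p) :=
  SimpleGraph.fromRel_adj _ _ _

/-! ### Measurability of the adjacency relation -/

theorem meas_Ok {Ω : Type*} [MeasurableSpace Ω] {Z : Ω → ℕ → ℕ} (hZ : Measurable Z) (u : List ℕ) :
    MeasurableSet {ω | Ok (Z ω) u} := by
  have h1 : MeasurableSet {z | Ok z u} := by
    have : {z | Ok z u} = ⋃ v : List ℕ, {z | ini z u.length = v} ∩
        {_z | ∃ q ∈ PS, ini q.1 u.length = v ∧ ini q.2 u.length = u} := by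
      ext z
      simp only [mem_ofPred_eq, mem_iUnion, mem_inter_iff, Ok]
      constructor
      · rintro ⟨q, h1, h2, h3⟩
        exact ⟨_, rfl, q, h1, h2, h3⟩
      · rintro ⟨v, rfl, q, h1, h2, h3⟩
        exact ⟨q, h1, h2, h3⟩
    rw [this]
    refine MeasurableSet.iUnion fun v => MeasurableSet.inter ?_ (MeasurableSet.const _)
    exact (isOpen_ini continuous_id _ v).measurableSet
  exact hZ h1

theorem meas_Alw {Ω : Type*} [MeasurableSpace Ω] {Z : Ω → ℕ → ℕ} (hZ : Measurable Z)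
    {K : Ω → ℕ} (hK : Measurable K) {Y : Ω → UnitAddCircle} (hY : Measurable Y) (n : ℕ) :
    MeasurableSet {ω | Alw (Z ω) (K ω) (Y ω) n} := by
  unfold Alw
  simp only [Set.ofPred_and]
  refine MeasurableSet.inter (hY (measurableSet_Yn n)) (MeasurableSet.inter ?_ (meas_Ok hZ _))
  exact measurableSet_eq_fun measurable_const hK

theorem meas_RR {Ω : Type*} [MeasurableSpace Ω] {P Q : Ω → HV} (hP : Measurable P)
    (hQ : Measurable Q) : MeasurableSet {ω | RR (P ω) (Q ω)} := by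
  have p1 : Measurable fun ω => (P ω).1 := measurable_fst.comp hP
  have q1 : Measurable fun ω => (Q ω).1 := measurable_fst.comp hQ
  have p2 : Measurable fun ω => (P ω).2.1 := measurable_fst.comp (measurable_snd.comp hP)
  have q2 : Measurable fun ω => (Q ω).2.1 := measurable_fst.comp (measurable_snd.comp hQ)
  have p3 : Measurable fun ω => (P ω).2.2.1 :=
    measurable_fst.comp (measurable_snd.comp (measurable_snd.comp hP))
  have q3 : Measurable fun ω => (Q ω).2.2.1 :=
    measurable_fst.comp (measurable_snd.comp (measurable_snd.comp hQ))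
  have p4 : Measurable fun ω => (P ω).2.2.2 :=
    measurable_snd.comp (measurable_snd.comp (measurable_snd.comp hP))
  have q4 : Measurable fun ω => (Q ω).2.2.2 :=
    measurable_snd.comp (measurable_snd.comp (measurable_snd.comp hQ))
  have P4 : ∀ i : ℕ, MeasurableSet {ω | (P ω).2.2.2 = i} := fun i =>
    p4 (measurableSet_singleton i)
  have Q4 : ∀ i : ℕ, MeasurableSet {ω | (Q ω).2.2.2 = i} := fun i =>
    q4 (measurableSet_singleton i)
  unfold RR
  simp only [Set.ofPred_and, Set.ofPred_or, Set.ofPred_exists, Set.ofPred_forall]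
  refine MeasurableSet.inter (measurableSet_eq_fun p1 q1) ?_
  refine MeasurableSet.union ((P4 _).inter (Q4 _)) ?_
  refine MeasurableSet.union ((P4 _).inter (Q4 _)) ?_
  refine MeasurableSet.union ((P4 _).inter (Q4 _)) ?_
  refine MeasurableSet.union ?_ (MeasurableSet.union ?_ ?_)
  · refine MeasurableSet.inter (measurableSet_eq_fun p2 q2) ?_
    refine MeasurableSet.inter (measurableSet_eq_fun p3 q3) ?_
    refine MeasurableSet.union ?_ ?_
    · refine MeasurableSet.inter (P4 _) (MeasurableSet.inter (Q4 _) ?_)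
      exact MeasurableSet.iInter fun n => (meas_Alw p1 p2 p3 n).compl
    refine MeasurableSet.union ((P4 _).inter (Q4 _)) ?_
    refine MeasurableSet.union ((P4 _).inter (Q4 _)) ?_
    refine MeasurableSet.union ((P4 _).inter (Q4 _)) ?_
    refine MeasurableSet.union ((P4 _).inter (Q4 _)) ?_
    refine MeasurableSet.union ((P4 _).inter (Q4 _)) ((P4 _).inter (Q4 _))
  · refine MeasurableSet.inter (measurableSet_eq_fun p2 q2) ?_
    refine (P4 _).inter ((Q4 _).inter ?_)
    exact MeasurableSet.inter (p3 measurableSet_Yg)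
      (measurableSet_eq_fun q3 (measurable_Td.comp p3))
  · refine MeasurableSet.inter (measurableSet_eq_fun q2 (p2.add_const 1)) ?_
    refine (P4 _).inter ((Q4 _).inter ?_)
    refine MeasurableSet.iUnion fun n => MeasurableSet.iUnion fun m => ?_
    refine MeasurableSet.inter (meas_Alw p1 p2 p3 n) (MeasurableSet.inter (meas_Alw q1 q2 q3 m) ?_)
    exact p2 (MeasurableSet.of_discrete (s := {k | (de m).take k ≠ de n}))

theorem meas_GH : MeasurableSet {p : HV × HV | GH.Adj p.1 p.2} := by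
  simp only [GH_adj, Set.ofPred_and, Set.ofPred_or]
  refine MeasurableSet.inter ?_ (MeasurableSet.union ?_ ?_)
  · exact (measurableSet_eq_fun measurable_fst measurable_snd).compl
  · exact meas_RR measurable_fst measurable_snd
  · exact meas_RR measurable_snd measurable_fst

/-! ### Colourings from markers -/

/-- Colouring of the circle from a marker set. -/
noncomputable def bcol (S : Set UnitAddCircle) (c : ℕ) (y : UnitAddCircle) : ℕ :=
  open Classical in
  if y ∈ Yg then (if y ∈ S then c else (lst fun j => Td^[j] y ∈ S) % 2) else 0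

theorem bcol_cases (S : Set UnitAddCircle) (c : ℕ) (y : UnitAddCircle) :
    bcol S c y < 2 ∨ (bcol S c y = c ∧ y ∈ Yg ∧ y ∈ S) := by
  unfold bcol
  split_ifs with h1 h2
  · exact Or.inr ⟨rfl, h1, h2⟩
  · exact Or.inl (Nat.mod_lt _ (by norm_num))
  · exact Or.inl (by norm_num)

theorem bcol_ne {S : Set UnitAddCircle} (h1 : ∀ y ∈ S, Td y ∉ S)
    (h2 : ∀ y ∈ Yg, ∃ j, Td^[j] y ∈ S) {c : ℕ} (hc : 2 ≤ c) {y : UnitAddCircle} (hy : y ∈ Yg) :
    bcol S c y ≠ bcol S c (Td y) := by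
  by_cases hyS : y ∈ S
  · have e1 : bcol S c y = c := by
      unfold bcol; rw [if_pos hy, if_pos hyS]
    rcases bcol_cases S c (Td y) with h | ⟨-, -, h⟩
    · omega
    · exact absurd h (h1 y hyS)
  · have e1 : bcol S c y = (lst fun j => Td^[j] y ∈ S) % 2 := by
      unfold bcol; rw [if_pos hy, if_neg hyS]
    by_cases hT : Td y ∈ S
    · have e2 : bcol S c (Td y) = c := by
        unfold bcol; rw [if_pos (Yg_Td hy), if_pos hT]
      rw [e1, e2]
      have := Nat.mod_lt (lst fun j => Td^[j] y ∈ S) (show 2 > 0 by norm_num)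
      omega
    · have e2 : bcol S c (Td y) = (lst fun j => Td^[j] (Td y) ∈ S) % 2 := by
        unfold bcol; rw [if_pos (Yg_Td hy), if_neg hT]
      rw [e1, e2]
      have h3 : (lst fun j => Td^[j] y ∈ S) = (lst fun j => Td^[j] (Td y) ∈ S) + 1 := by
        refine lst_eq ?_ ?_
        · exact lst_spec (P := fun j => Td^[j] (Td y) ∈ S) (h2 _ (Yg_Td hy))
        · intro m hm
          rcases m with _ | m
          · exact hyS
          · exact lst_min (P := fun j => Td^[j] (Td y) ∈ S) (by omega)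
      rw [h3]
      omega

theorem meas_bcol {S : Set UnitAddCircle} (hS : MeasurableSet S) (c : ℕ) :
    Measurable (bcol S c) := by
  classical
  unfold bcol
  refine Measurable.ite measurableSet_Yg (Measurable.ite hS measurable_const ?_) measurable_const
  have h1 : Measurable fun y => lst fun j => Td^[j] y ∈ S :=
    measurable_lst fun j => (measurable_Td.iterate j) hS
  exact (Measurable.of_discrete (f := fun n : ℕ => n % 2)).comp h1

/-- The colours of all vertices, as a function of the colour of the base vertex. -/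
def gcol (b k tag : ℕ) : ℕ :=
  if tag = 0 then b
  else if tag = 1 then (if b = 2 then 0 else 2)
  else if tag = 2 then (if b = 2 then 1 else 2)
  else if tag = 3 then (if b = 2 then 2 else k % 2)
  else if tag = 4 then 0
  else if tag = 5 then 1
  else if tag = 6 then 2
  else 0

/-- The `3`-colouring coming from an element of the fibre. -/
noncomputable def col3H (w : ℕ → ℕ) (p : HV) : ℕ :=
  gcol (bcol (Yn (en (ini w p.2.1))) 2 p.2.2.1) p.2.1 p.2.2.2

theorem col3H_lt (w : ℕ → ℕ) (p : HV) : col3H w p < 3 := by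
  unfold col3H gcol
  have h1 := bcol_cases (Yn (en (ini w p.2.1))) 2 p.2.2.1
  have h2 : bcol (Yn (en (ini w p.2.1))) 2 p.2.2.1 < 3 := by
    rcases h1 with h | h <;> omega
  have h3 := Nat.mod_lt p.2.1 (show 2 > 0 by norm_num)
  split_ifs <;> omega

theorem Yg_hit {y : UnitAddCircle} (hy : y ∈ Yg) (n : ℕ) : ∃ j, Td^[j] y ∈ Yn n := by
  obtain ⟨j, -, h⟩ := hy n 0
  exact ⟨j, h⟩

theorem col3H_RR {z w : ℕ → ℕ} (hw : (z, w) ∈ PS) {p q : HV} (hp : p.1 = z) (h : RR p q) :
    col3H w p ≠ col3H w q := by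
  obtain ⟨z', k, y, a⟩ := p
  obtain ⟨z'', k', y', b⟩ := q
  obtain ⟨h0, h⟩ := h
  change z' = z at hp
  change z' = z'' at h0
  subst hp
  subst h0
  have hOk : ∀ k, Ok z' (ini w k) := by
    intro k
    refine ⟨(z', w), hw, rfl, ?_⟩
    simp [ini]
  have key : ∀ k y, bcol (Yn (en (ini w k))) 2 y = 2 → y ∈ Yn (en (ini w k)) := by
    intro k y h
    rcases bcol_cases (Yn (en (ini w k))) 2 y with h1 | ⟨-, -, h1⟩
    · omega
    · exact h1
  have key2 : ∀ k y, bcol (Yn (en (ini w k))) 2 y < 3 := by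
    intro k y
    rcases bcol_cases (Yn (en (ini w k))) 2 y with h1 | ⟨h1, -, -⟩ <;> omega
  have key3 := key2 k y
  have key4 := key2 k' y'
  unfold col3H
  simp only at h ⊢
  rcases h with ⟨rfl, rfl⟩ | ⟨rfl, rfl⟩ | ⟨rfl, rfl⟩ | ⟨rfl, rfl, h⟩ | ⟨rfl, rfl, rfl, hy, rfl⟩ |
    ⟨rfl, rfl, rfl, n, m, h1, h2, h3⟩
  · simp [gcol]
  · simp [gcol]
  · simp [gcol]
  · rcases h with ⟨rfl, rfl, h⟩ | ⟨rfl, rfl⟩ | ⟨rfl, rfl⟩ | ⟨rfl, rfl⟩ | ⟨rfl, rfl⟩ | ⟨rfl, rfl⟩ |
      ⟨rfl, rfl⟩
    · have : gcol (bcol (Yn (en (ini w k))) 2 y) k 0 = bcol (Yn (en (ini w k))) 2 y := by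
        simp [gcol]
      rw [this]
      have e2 : gcol (bcol (Yn (en (ini w k))) 2 y) k 6 = 2 := by simp [gcol]
      rw [e2]
      intro h2
      refine h (en (ini w k)) ⟨key k y h2, ?_, ?_⟩
      · rw [de_en]; simp [ini]
      · rw [de_en]; exact hOk k
    all_goals
      rcases Nat.mod_two_eq_zero_or_one k with hk | hk <;>
      generalize bcol (Yn (en (ini w k))) 2 y = b at key3 <;>
      interval_cases b <;> simp [gcol, hk]
  · simp only [gcol, if_true]
    exact bcol_ne (fun y h => Yn_Td h) (fun y h => Yg_hit h _) le_rfl hy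
  · have hb : ¬ (bcol (Yn (en (ini w k))) 2 y = 2 ∧ bcol (Yn (en (ini w (k + 1)))) 2 y' = 2) := by
      rintro ⟨hb1, hb2⟩
      have e1 := Yn_inj (key _ _ hb1) h1.1
      have e2 := Yn_inj (key _ _ hb2) h2.1
      apply h3
      rw [← e1, ← e2, de_en, de_en, ini_succ']
      rw [List.take_left' (by simp [ini])]
    simp only [gcol]
    norm_num
    split_ifs <;> omega

theorem col3H_adj {z w : ℕ → ℕ} (hw : (z, w) ∈ PS) {p q : HV} (hp : p.1 = z) (h : GH.Adj p q) :
    col3H w p ≠ col3H w q := by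
  rcases (GH_adj.1 h).2 with h | h
  · exact col3H_RR hw hp h
  · exact (col3H_RR hw (h.1.trans hp) h).symm

/-- The union of the marker sets. -/
def Vn : Set UnitAddCircle := ⋃ n, Yn n

theorem measurableSet_Vn : MeasurableSet Vn := MeasurableSet.iUnion measurableSet_Yn

/-- The `4`-colouring. -/
noncomputable def col4H (p : HV) : ℕ := gcol (bcol Vn 3 p.2.2.1) p.2.1 p.2.2.2

theorem col4H_lt (p : HV) : col4H p < 4 := by
  unfold col4H gcol
  have h1 := bcol_cases Vn 3 p.2.2.1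
  have h2 : bcol Vn 3 p.2.2.1 < 4 := by
    rcases h1 with h | h <;> omega
  have h3 := Nat.mod_lt p.2.1 (show 2 > 0 by norm_num)
  split_ifs <;> omega

theorem col4H_RR {p q : HV} (h : RR p q) : col4H p ≠ col4H q := by
  obtain ⟨z', k, y, a⟩ := p
  obtain ⟨z'', k', y', b⟩ := q
  obtain ⟨h0, h⟩ := h
  change z' = z'' at h0
  subst h0
  have key2 : ∀ y, bcol Vn 3 y ≠ 2 := by
    intro y
    rcases bcol_cases Vn 3 y with h1 | ⟨h1, -, -⟩ <;> omega
  have key3 := key2 y
  have key4 := key2 y'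
  unfold col4H
  simp only at h ⊢
  rcases h with ⟨rfl, rfl⟩ | ⟨rfl, rfl⟩ | ⟨rfl, rfl⟩ | ⟨rfl, rfl, h⟩ | ⟨rfl, rfl, rfl, hy, rfl⟩ |
    ⟨rfl, rfl, rfl, n, m, h1, h2, h3⟩
  · simp [gcol]
  · simp [gcol]
  · simp [gcol]
  · rcases Nat.mod_two_eq_zero_or_one k with h3 | h3 <;>
    rcases h with ⟨rfl, rfl, h⟩ | ⟨rfl, rfl⟩ | ⟨rfl, rfl⟩ | ⟨rfl, rfl⟩ | ⟨rfl, rfl⟩ | ⟨rfl, rfl⟩ |
      ⟨rfl, rfl⟩ <;> simp [gcol, key3, h3]
  · simp only [gcol, if_true]
    refine bcol_ne (fun y h => ?_) (fun y h => ?_) (by norm_num) hy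
    · obtain ⟨n, hn⟩ := mem_iUnion.1 h
      intro h2
      obtain ⟨m, hm⟩ := mem_iUnion.1 h2
      exact Yn_Td hn hm
    · obtain ⟨j, hj⟩ := Yg_hit h 0
      exact ⟨j, mem_iUnion.2 ⟨0, hj⟩⟩
  · simp only [gcol]
    norm_num
    split_ifs <;> omega

theorem col4H_adj {p q : HV} (h : GH.Adj p q) : col4H p ≠ col4H q := by
  rcases (GH_adj.1 h).2 with h | h
  · exact col4H_RR h
  · exact (col4H_RR h).symm

theorem meas_gcol {Ω : Type*} [MeasurableSpace Ω] {b k t : Ω → ℕ} (hb : Measurable b)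
    (hk : Measurable k) (ht : Measurable t) : Measurable fun ω => gcol (b ω) (k ω) (t ω) := by
  have h1 : Measurable fun r : ℕ × ℕ × ℕ => gcol r.1 r.2.1 r.2.2 := Measurable.of_discrete
  exact h1.comp (hb.prodMk (hk.prodMk ht))

theorem meas_col4H : Measurable col4H := by
  unfold col4H
  refine meas_gcol ((meas_bcol measurableSet_Vn 3).comp ?_) ?_ ?_
  · exact measurable_fst.comp (measurable_snd.comp measurable_snd)
  · exact measurable_fst.comp measurable_snd
  · exact measurable_snd.comp (measurable_snd.comp measurable_snd)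

theorem meas_en_ini {Ω : Type*} [MeasurableSpace Ω] {W : Ω → ℕ → ℕ} (hW : Measurable W)
    {K : Ω → ℕ} (hK : Measurable K) : Measurable fun ω => en (ini (W ω) (K ω)) := by
  have h1 : ∀ k, Measurable fun w : ℕ → ℕ => en (ini w k) := by
    intro k
    refine measurable_to_countable' fun n => ?_
    have : (fun w : ℕ → ℕ => en (ini w k)) ⁻¹' {n} = {w | ini w k = de n} := by
      ext w
      simp only [mem_preimage, mem_singleton_iff, mem_ofPred_eq]
      constructor
      · intro h; rw [← h, de_en]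
      · intro h; rw [h, en_de]
    rw [this]
    exact (isOpen_ini continuous_id _ _).measurableSet
  have h2 : Measurable fun p : ℕ × (ℕ → ℕ) => en (ini p.2 p.1) :=
    measurable_from_prod_countable_right h1
  exact h2.comp (hK.prodMk hW)

theorem meas_col3H {Ω : Type*} [MeasurableSpace Ω] {W : Ω → ℕ → ℕ} (hW : Measurable W)
    {P : Ω → HV} (hP : Measurable P) : Measurable fun ω => col3H (W ω) (P ω) := by
  unfold col3H
  have p2 : Measurable fun ω => (P ω).2.1 := measurable_fst.comp (measurable_snd.comp hP)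
  have p3 : Measurable fun ω => (P ω).2.2.1 :=
    measurable_fst.comp (measurable_snd.comp (measurable_snd.comp hP))
  have p4 : Measurable fun ω => (P ω).2.2.2 :=
    measurable_snd.comp (measurable_snd.comp (measurable_snd.comp hP))
  refine meas_gcol ?_ p2 p4
  have h2 : Measurable fun p : ℕ × UnitAddCircle => bcol (Yn p.1) 2 p.2 :=
    measurable_from_prod_countable_right fun n => meas_bcol (measurableSet_Yn n) 2
  exact h2.comp ((meas_en_ini hW p2).prodMk p3)

end Pool.Agent.W923.BH
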