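import Mathlib
import Pool.Agent.W923.BH.Gadget

set_option autoImplicit false

/-!
# The second graph has no Borel 3-colouring
-/

namespace Pool.Agent.W923.BH

open Set Filter Topology MeasureTheory

theorem mem_PS_of_Ok {z w : ℕ → ℕ} (h : ∀ k, Ok z (ini w k)) : (z, w) ∈ PS := by
  have hl : ∀ (v : ℕ → ℕ) (k : ℕ), (ini v k).length = k := fun v k => by simp [ini]
  choose q hq1 hq2 hq3 using h
  simp only [hl] at hq2 hq3
  have hini : ∀ (v v' : ℕ → ℕ) (k : ℕ), ini v k = ini v' k → ∀ i < k, v i = v' i := by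
    intro v v' k h i hi
    have h1 : (ini v k)[i]? = (ini v' k)[i]? := by rw [h]
    simpa [ini, hi] using h1
  have h1 : Tendsto q atTop (𝓝 (z, w)) := by
    refine Tendsto.prodMk_nhds (f := atTop) (mx := fun k => (q k).1) (my := fun k => (q k).2) ?_ ?_
    · rw [tendsto_pi_nhds]
      intro i
      refine tendsto_const_nhds.congr' ?_
      filter_upwards [eventually_gt_atTop i] with k hk
      exact (hini _ _ _ (hq2 k) i hk).symm
    · rw [tendsto_pi_nhds]
      intro i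
      refine tendsto_const_nhds.congr' ?_
      filter_upwards [eventually_gt_atTop i] with k hk
      exact (hini _ _ _ (hq3 k) i hk).symm
  exact isClosed_PS.mem_of_tendsto h1 (Eventually.of_forall hq1)

theorem Td_ne {y : UnitAddCircle} (hy : y ∈ Yg) : Td y ≠ y := by
  intro h
  obtain ⟨j, hj⟩ := Yg_hit hy 0
  have : Td^[j] y = y := by
    induction j with
    | zero => rfl
    | succ j ih => rw [Function.iterate_succ_apply, h]; exact Function.iterate_fixed h j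
  rw [this] at hj
  apply Yn_Td hj (m := 0)
  rw [h]
  exact hj

section

variable {c : HV → ℕ}

theorem no_three (hc : Measurable c) (hlt : ∀ p, c p < 3)
    (hne : ∀ p q, GH.Adj p q → c p ≠ c q) : False := by
  -- adjacency in coordinates
  have adj : ∀ p q : HV, p ≠ q → RR p q → c p ≠ c q := fun p q h1 h2 =>
    hne p q (GH_adj.2 ⟨h1, Or.inl h2⟩)
  have tag : ∀ (z : ℕ → ℕ) (k k' : ℕ) (y y' : UnitAddCircle) (a b : ℕ), a ≠ b →
      ((z, k, y, a) : HV) ≠ (z, k', y', b) := by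
    intro z k k' y y' a b hab h
    simp only [Prod.mk.injEq] at h
    exact hab h.2.2.2
  have r45 : ∀ z k y k' y', c (z, k, y, 4) ≠ c (z, k', y', 5) := fun z k y k' y' =>
    adj _ _ (tag _ _ _ _ _ _ _ (by norm_num)) ⟨rfl, Or.inl ⟨rfl, rfl⟩⟩
  have r46 : ∀ z k y k' y', c (z, k, y, 4) ≠ c (z, k', y', 6) := fun z k y k' y' =>
    adj _ _ (tag _ _ _ _ _ _ _ (by norm_num)) ⟨rfl, Or.inr (Or.inl ⟨rfl, rfl⟩)⟩
  have r56 : ∀ z k y k' y', c (z, k, y, 5) ≠ c (z, k', y', 6) := fun z k y k' y' =>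
    adj _ _ (tag _ _ _ _ _ _ _ (by norm_num)) ⟨rfl, Or.inr (Or.inr (Or.inl ⟨rfl, rfl⟩))⟩
  have const : ∀ z k y, c (z, k, y, 4) = c (z, 0, 0, 4) ∧ c (z, k, y, 5) = c (z, 0, 0, 5) ∧
      c (z, k, y, 6) = c (z, 0, 0, 6) := by
    intro z k y
    have a1 := r45 z 0 0 0 0
    have a2 := r46 z 0 0 0 0
    have a3 := r56 z 0 0 0 0
    have b1 := r45 z k y 0 0
    have b2 := r46 z k y 0 0
    have b3 := r56 z k y 0 0
    have c1 := r45 z 0 0 k y
    have c2 := r46 z 0 0 k y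
    have c3 := r56 z 0 0 k y
    have d1 := hlt (z, 0, 0, 4)
    have d2 := hlt (z, 0, 0, 5)
    have d3 := hlt (z, 0, 0, 6)
    have e1 := hlt (z, k, y, 4)
    have e2 := hlt (z, k, y, 5)
    have e3 := hlt (z, k, y, 6)
    omega
  have s06 : ∀ z k y, (∀ n, ¬ Alw z k y n) → c (z, k, y, 0) ≠ c (z, k, y, 6) := fun z k y h =>
    adj _ _ (tag _ _ _ _ _ _ _ (by norm_num))
      ⟨rfl, Or.inr (Or.inr (Or.inr (Or.inl ⟨rfl, rfl, Or.inl ⟨rfl, rfl, h⟩⟩)))⟩
  have s01 : ∀ z k y, c (z, k, y, 0) ≠ c (z, k, y, 1) := fun z k y =>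
    adj _ _ (tag _ _ _ _ _ _ _ (by norm_num))
      ⟨rfl, Or.inr (Or.inr (Or.inr (Or.inl ⟨rfl, rfl, Or.inr (Or.inl ⟨rfl, rfl⟩)⟩)))⟩
  have s02 : ∀ z k y, c (z, k, y, 0) ≠ c (z, k, y, 2) := fun z k y =>
    adj _ _ (tag _ _ _ _ _ _ _ (by norm_num))
      ⟨rfl, Or.inr (Or.inr (Or.inr (Or.inl ⟨rfl, rfl, Or.inr (Or.inr (Or.inl ⟨rfl, rfl⟩))⟩)))⟩
  have s15 : ∀ z k y, c (z, k, y, 1) ≠ c (z, k, y, 5) := fun z k y =>
    adj _ _ (tag _ _ _ _ _ _ _ (by norm_num))
      ⟨rfl, Or.inr (Or.inr (Or.inr (Or.inl ⟨rfl, rfl,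
        Or.inr (Or.inr (Or.inr (Or.inl ⟨rfl, rfl⟩)))⟩)))⟩
  have s24 : ∀ z k y, c (z, k, y, 2) ≠ c (z, k, y, 4) := fun z k y =>
    adj _ _ (tag _ _ _ _ _ _ _ (by norm_num))
      ⟨rfl, Or.inr (Or.inr (Or.inr (Or.inl ⟨rfl, rfl,
        Or.inr (Or.inr (Or.inr (Or.inr (Or.inl ⟨rfl, rfl⟩))))⟩)))⟩
  have s13 : ∀ z k y, c (z, k, y, 1) ≠ c (z, k, y, 3) := fun z k y =>
    adj _ _ (tag _ _ _ _ _ _ _ (by norm_num))
      ⟨rfl, Or.inr (Or.inr (Or.inr (Or.inl ⟨rfl, rfl,
        Or.inr (Or.inr (Or.inr (Or.inr (Or.inr (Or.inl ⟨rfl, rfl⟩)))))⟩)))⟩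
  have s23 : ∀ z k y, c (z, k, y, 2) ≠ c (z, k, y, 3) := fun z k y =>
    adj _ _ (tag _ _ _ _ _ _ _ (by norm_num))
      ⟨rfl, Or.inr (Or.inr (Or.inr (Or.inl ⟨rfl, rfl,
        Or.inr (Or.inr (Or.inr (Or.inr (Or.inr (Or.inr ⟨rfl, rfl⟩)))))⟩)))⟩
  have s00 : ∀ z k y, y ∈ Yg → c (z, k, y, 0) ≠ c (z, k, Td y, 0) := by
    intro z k y hy
    refine adj _ _ ?_ ⟨rfl, Or.inr (Or.inr (Or.inr (Or.inr (Or.inl ⟨rfl, rfl, rfl, hy, rfl⟩))))⟩
    intro h
    simp only [Prod.mk.injEq, true_and, and_true] at h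
    exact Td_ne hy h.symm
  have s33 : ∀ z k y y' n m, Alw z k y n → Alw z (k + 1) y' m → (de m).take k ≠ de n →
      c (z, k, y, 3) ≠ c (z, k + 1, y', 3) := by
    intro z k y y' n m h1 h2 h3
    refine adj _ _ ?_ ⟨rfl, Or.inr (Or.inr (Or.inr (Or.inr (Or.inr
      ⟨rfl, rfl, rfl, n, m, h1, h2, h3⟩))))⟩
    intro h
    simp only [Prod.mk.injEq] at h
    omega
  -- consequences
  have base3 : ∀ z k y, c (z, k, y, 0) = c (z, 0, 0, 6) → c (z, k, y, 3) = c (z, 0, 0, 6) := by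
    intro z k y h
    obtain ⟨e1, e2, e3⟩ := const z k y
    have a1 := s01 z k y
    have a2 := s02 z k y
    have a3 := s15 z k y
    have a4 := s24 z k y
    have a5 := s13 z k y
    have a6 := s23 z k y
    have b1 := r45 z 0 0 0 0
    have b2 := r46 z 0 0 0 0
    have b3 := r56 z 0 0 0 0
    have d1 := hlt (z, 0, 0, 4)
    have d2 := hlt (z, 0, 0, 5)
    have d3 := hlt (z, 0, 0, 6)
    have d4 := hlt (z, k, y, 1)
    have d5 := hlt (z, k, y, 2)
    have d6 := hlt (z, k, y, 3)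
    omega
  have alw : ∀ z k y, c (z, k, y, 0) = c (z, 0, 0, 6) → ∃ n, Alw z k y n := by
    intro z k y h
    by_contra h2
    push Not at h2
    exact s06 z k y h2 (h.trans (const z k y).2.2.symm)
  -- the measure of the colour
  let B : ℕ → ℕ → Set ((ℕ → ℕ) × UnitAddCircle) := fun k n =>
    {r | r.2 ∈ Yn n ∧ c (r.1, k, r.2, 0) = c (r.1, 0, 0, 6)}
  have hB : ∀ k n, MeasurableSet (B k n) := by
    intro k n
    refine MeasurableSet.inter (measurable_snd (measurableSet_Yn n)) ?_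
    refine measurableSet_eq_fun (hc.comp ?_) (hc.comp ?_)
    · exact measurable_fst.prodMk (measurable_const.prodMk (measurable_snd.prodMk measurable_const))
    · exact measurable_fst.prodMk (measurable_const.prodMk
        (measurable_const.prodMk measurable_const))
  have hpos : ∀ z k, ∃ n, (volume : Measure UnitAddCircle) (Prod.mk z ⁻¹' B k n) ≠ 0 := by
    intro z k
    by_contra hcon
    push Not at hcon
    have h1 : ∀ᵐ y ∂(volume : Measure UnitAddCircle), c (z, k, y, 0) ≠ c (z, 0, 0, 6) := by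
      have h2 : ∀ᵐ y ∂(volume : Measure UnitAddCircle), ∀ n, y ∉ Prod.mk z ⁻¹' B k n :=
        ae_all_iff.2 fun n => measure_eq_zero_iff_ae_notMem.1 (hcon n)
      filter_upwards [h2] with y hy h3
      obtain ⟨n, hn⟩ := alw z k y h3
      exact hy n ⟨hn.1, h3⟩
    refine no_two_coloring (A := {y | c (z, k, y, 0) = c (z, 0, 0, 4)}) ?_ ?_
    · refine (hc.comp ?_) (measurableSet_singleton (c (z, 0, 0, 4)))
      exact measurable_const.prodMk (measurable_const.prodMk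
        (measurable_id.prodMk measurable_const))
    · filter_upwards [h1, ae_Yg,
        ergodic_Td.toMeasurePreserving.quasiMeasurePreserving.ae h1] with y a1 a2 a3
      have b1 := r45 z 0 0 0 0
      have b2 := r46 z 0 0 0 0
      have b3 := r56 z 0 0 0 0
      have d1 := hlt (z, 0, 0, 4)
      have d2 := hlt (z, 0, 0, 5)
      have d3 := hlt (z, 0, 0, 6)
      have d4 := hlt (z, k, y, 0)
      have d5 := hlt (z, k, Td y, 0)
      have a4 := s00 z k y a2
      change c (z, k, y, 0) = c (z, 0, 0, 4) ↔ ¬ c (z, k, Td y, 0) = c (z, 0, 0, 4)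
      omega
  let N : ℕ → (ℕ → ℕ) → ℕ := fun k z =>
    lst fun n => (volume : Measure UnitAddCircle) (Prod.mk z ⁻¹' B k n) ≠ 0
  have hN : ∀ k, Measurable (N k) := by
    intro k
    refine measurable_lst fun n => ?_
    exact (measurable_measure_prodMk_left (hB k n)) (measurableSet_singleton 0).compl
  have hpt : ∀ z k, ∃ y, y ∈ Yn (N k z) ∧ c (z, k, y, 0) = c (z, 0, 0, 6) := by
    intro z k
    have h1 : (volume : Measure UnitAddCircle) (Prod.mk z ⁻¹' B k (N k z)) ≠ 0 :=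
      lst_spec (hpos z k)
    obtain ⟨y, hy⟩ := nonempty_of_measure_ne_zero h1
    exact ⟨y, hy.1, hy.2⟩
  have hAl : ∀ z k, ∃ y, c (z, k, y, 0) = c (z, 0, 0, 6) ∧ Alw z k y (N k z) := by
    intro z k
    obtain ⟨y, hy1, hy2⟩ := hpt z k
    obtain ⟨n, hn⟩ := alw z k y hy2
    have := Yn_inj hy1 hn.1
    rw [this]
    exact ⟨y, hy2, hn⟩
  have htake : ∀ z k, (de (N (k + 1) z)).take k = de (N k z) := by
    intro z k
    obtain ⟨y, hy1, hy2⟩ := hAl z k
    obtain ⟨y', hy1', hy2'⟩ := hAl z (k + 1)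
    by_contra h
    exact s33 z k y y' _ _ hy2 hy2' h ((base3 z k y hy1).trans (base3 z (k + 1) y' hy1').symm)
  let W : (ℕ → ℕ) → ℕ → ℕ := fun z i => (de (N (i + 1) z)).getD i 0
  have hW : Measurable W := by
    rw [measurable_pi_iff]
    intro i
    have : Measurable fun n : ℕ => (de n).getD i 0 := Measurable.of_discrete
    exact this.comp (hN (i + 1))
  have hini : ∀ z k, ini (W z) k = de (N k z) := by
    intro z k
    have hlen : ∀ k, (de (N k z)).length = k := fun k => by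
      obtain ⟨y, -, h⟩ := hAl z k
      exact h.2.1
    induction k with
    | zero => exact (List.length_eq_zero_iff.1 (hlen 0)).symm
    | succ k ih =>
      rw [ini_succ', ih, ← htake z k]
      have h1 : k < (de (N (k + 1) z)).length := by rw [hlen]; omega
      have h2 : W z k = (de (N (k + 1) z))[k] := List.getD_eq_getElem _ _ h1
      rw [h2, List.take_append_getElem h1]
      exact List.take_of_length_le (by rw [hlen])
  refine PS_no_unif W hW fun z => mem_PS_of_Ok fun k => ?_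
  rw [hini]
  obtain ⟨y, -, h⟩ := hAl z k
  exact h.2.2

end

end Pool.Agent.W923.BH
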