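import Mathlib
import Pool.Agent.W923.BH.NoThree

set_option autoImplicit false

/-!
# The Borel chromatic number of a product
-/

namespace Pool.Agent.W923.BH

open Set Filter Topology MeasureTheory

/-- The shift graph. -/
def GS : SimpleGraph (ℕ → ℕ) := SimpleGraph.fromRel fun x y => StrictMono x ∧ y = Sh x

theorem GS_adj {x y : ℕ → ℕ} (h : GS.Adj x y) :
    (StrictMono x ∧ y = Sh x) ∨ (StrictMono y ∧ x = Sh y) :=
  ((SimpleGraph.fromRel_adj _ _ _).1 h).2

theorem GS_adj_Sh {x : ℕ → ℕ} (h : StrictMono x) : GS.Adj x (Sh x) := by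
  refine (SimpleGraph.fromRel_adj _ _ _).2 ⟨fun h2 => ?_, Or.inl ⟨h, rfl⟩⟩
  have h3 : x 0 < x 1 := h (by norm_num)
  have h4 : x 0 = x 1 := congrFun h2 0
  omega

theorem meas_GS : MeasurableSet {p : (ℕ → ℕ) × (ℕ → ℕ) | GS.Adj p.1 p.2} := by
  have hS : MeasurableSet {x : ℕ → ℕ | StrictMono x} := by
    have : {x : ℕ → ℕ | StrictMono x} = ⋂ n, {x | x n < x (n + 1)} := by
      ext x
      simp only [mem_ofPred_eq, mem_iInter]
      exact ⟨fun h n => h (Nat.lt_succ_self n), strictMono_nat_of_lt_succ⟩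
    rw [this]
    exact MeasurableSet.iInter fun n =>
      measurableSet_lt (measurable_pi_apply n) (measurable_pi_apply (n + 1))
  have hSh : Measurable (Sh : (ℕ → ℕ) → ℕ → ℕ) :=
    measurable_pi_iff.2 fun i => measurable_pi_apply (i + 1)
  have h1 : {p : (ℕ → ℕ) × (ℕ → ℕ) | GS.Adj p.1 p.2} =
      {p | ¬ p.1 = p.2} ∩ (({p | StrictMono p.1} ∩ {p | p.2 = Sh p.1}) ∪
        ({p | StrictMono p.2} ∩ {p | p.1 = Sh p.2})) := by
    ext p
    exact SimpleGraph.fromRel_adj (fun x y : ℕ → ℕ => StrictMono x ∧ y = Sh x) p.1 p.2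
  rw [h1]
  refine MeasurableSet.inter (measurableSet_eq_fun measurable_fst measurable_snd).compl ?_
  refine MeasurableSet.union (MeasurableSet.inter ?_ ?_) (MeasurableSet.inter ?_ ?_)
  · exact measurable_fst hS
  · exact measurableSet_eq_fun measurable_snd (hSh.comp measurable_fst)
  · exact measurable_snd hS
  · exact measurableSet_eq_fun measurable_fst (hSh.comp measurable_snd)

/-- The `3`-colouring of the product. -/
noncomputable def colP (r : (ℕ → ℕ) × HV) : ℕ :=
  open Classical in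
  if SV (VV r.1 r.2.1) then col3 r.1 (FV (VV r.1 r.2.1)) else col3H (WV (VV r.1 r.2.1)) r.2

theorem colP_lt (r : (ℕ → ℕ) × HV) : colP r < 3 := by
  unfold colP
  split_ifs
  · exact col3_lt _ _
  · exact col3H_lt _ _

theorem meas_colP : Measurable colP := by
  classical
  have hV : ∀ t i m, MeasurableSet {r : (ℕ → ℕ) × HV | VV r.1 r.2.1 t i m} := by
    intro t i m
    have h1 : Measurable fun r : (ℕ → ℕ) × HV => (r.1, r.2.1) :=
      measurable_fst.prodMk (measurable_fst.comp measurable_snd)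
    exact h1 (meas_VV t i m)
  refine Measurable.ite (meas_SV hV) ?_ ?_
  · exact measurable_col3.comp (measurable_fst.prodMk (meas_FV hV))
  · exact meas_col3H (meas_WV hV) measurable_snd

theorem colP_step {x : ℕ → ℕ} (hx : StrictMono x) {p q : HV} (h : GH.Adj p q) :
    colP (x, p) ≠ colP (Sh x, q) := by
  have hpq : q.1 = p.1 := by
    rcases (GH_adj.1 h).2 with h | h
    · exact h.1.symm
    · exact h.1
  have hV : VV (Sh x) q.1 = VV x p.1 := by rw [hpq, VV_Sh hx]
  by_cases hS : SV (VV x p.1)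
  · have e1 : colP (x, p) = col3 x (FV (VV x p.1)) := if_pos hS
    have e2 : colP (Sh x, q) = col3 (Sh x) (FV (VV x p.1)) := by
      unfold colP
      simp only [hV]
      exact if_pos (by rw [hV]; exact hS)
    rw [e1, e2]
    exact col3_ne hx (SV_nondom hx hS)
  · have e1 : colP (x, p) = col3H (WV (VV x p.1)) p := if_neg hS
    have e2 : colP (Sh x, q) = col3H (WV (VV x p.1)) q := by
      unfold colP
      simp only [hV]
      exact if_neg (by rw [hV]; exact hS)
    rw [e1, e2]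
    exact col3H_adj (WV_mem hx hS) rfl h

theorem colP_ne {x y : ℕ → ℕ} {p q : HV} (h1 : GS.Adj x y) (h2 : GH.Adj p q) :
    colP (x, p) ≠ colP (y, q) := by
  rcases GS_adj h1 with ⟨hx, rfl⟩ | ⟨hy, rfl⟩
  · exact colP_step hx h2
  · exact (colP_step hy h2.symm).symm

/-- The shift graph has no Borel colouring with finitely many colours. -/
theorem GS_not (n : ℕ) : ¬ ∃ c : (ℕ → ℕ) → ℕ, Measurable c ∧ (∀ x, c x < n) ∧
    ∀ x y, GS.Adj x y → c x ≠ c y := by
  rintro ⟨c, hc, hlt, hne⟩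
  obtain ⟨x, hx, h⟩ := shift_not_colorable n c hc hlt
  exact hne _ _ (GS_adj_Sh hx) h

theorem GH_not : ¬ ∃ c : HV → ℕ, Measurable c ∧ (∀ x, c x < 3) ∧
    ∀ x y, GH.Adj x y → c x ≠ c y := by
  rintro ⟨c, hc, hlt, hne⟩
  exact no_three hc hlt hne

end Pool.Agent.W923.BH
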